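import Mathlib

/-!
# Riemannian metrics on `ℝⁿ` in global coordinates

Textbook definitions: coefficient matrix, Christoffel symbols, covariant derivative along a curve,
geodesics, curvature tensor, Jacobi fields, conjugate points, length, Riemannian distance,
completeness.
-/

set_option autoImplicit false

namespace Pool.Agent.NC76

open scoped ContDiff

/-- A smooth Riemannian metric on `ℝⁿ = (Fin n → ℝ)`, given by its coefficient matrix
`(g_ij(x))`, which depends smoothly on `x` and is symmetric and positive definite. -/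
structure RMetric (n : ℕ) where
  /-- the coefficient matrix -/
  coeff : (Fin n → ℝ) → Matrix (Fin n) (Fin n) ℝ
  smooth : ∀ i j, ContDiff ℝ ∞ (fun x => coeff x i j)
  posDef : ∀ x, (coeff x).PosDef

namespace RMetric

variable {n : ℕ} (g : RMetric n)

/-- The inner product `g_x(u, v)` of two tangent vectors at `x`. -/
noncomputable def inner (x u v : Fin n → ℝ) : ℝ :=
  ∑ i, ∑ j, g.coeff x i j * u i * v j

/-- The derivative of the coefficient `g_ij` in the direction of the `k`-th coordinate. -/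
noncomputable def dcoeff (k i j : Fin n) (x : Fin n → ℝ) : ℝ :=
  fderiv ℝ (fun y => g.coeff y i j) x (Pi.single k 1)

/-- The Christoffel symbol
`Γ^k_ij = (1/2) ∑_l g^kl (∂_i g_jl + ∂_j g_il - ∂_l g_ij)`. -/
noncomputable def christoffel (k i j : Fin n) (x : Fin n → ℝ) : ℝ :=
  (1 / 2) * ∑ l, (g.coeff x)⁻¹ k l * (g.dcoeff i j l x + g.dcoeff j i l x - g.dcoeff l i j x)

/-- The vector `Γ_x(u, v)` with components `∑_ij Γ^k_ij(x) u^i v^j`. -/
noncomputable def Gam (x u v : Fin n → ℝ) : Fin n → ℝ :=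
  fun k => ∑ i, ∑ j, g.christoffel k i j x * u i * v j

/-- The covariant derivative `DV/dt = V' + Γ(γ', V)` of a vector field `V` along a curve `γ`. -/
noncomputable def covDeriv (γ V : ℝ → Fin n → ℝ) (t : ℝ) : Fin n → ℝ :=
  deriv V t + g.Gam (γ t) (deriv γ t) (V t)

/-- `γ : ℝ → ℝⁿ` is a geodesic (with affine parameter): it is twice differentiable and
`D γ'/dt = 0`. -/
def IsGeodesic (γ : ℝ → Fin n → ℝ) : Prop :=
  Differentiable ℝ γ ∧ Differentiable ℝ (deriv γ) ∧ ∀ t, g.covDeriv γ (deriv γ) t = 0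

/-- A geodesic parametrised by arc length, defined on all of `ℝ`. -/
def IsUnitSpeedGeodesic (γ : ℝ → Fin n → ℝ) : Prop :=
  g.IsGeodesic γ ∧ ∀ t, g.inner (γ t) (deriv γ t) (deriv γ t) = 1

/-- The curvature tensor `R(u, v)w = ∇_u ∇_v w - ∇_v ∇_u w` (for `u`, `v`, `w` extended to
constant coordinate vector fields), at the point `x`. -/
noncomputable def curv (x u v w : Fin n → ℝ) : Fin n → ℝ :=
  fderiv ℝ (fun y => g.Gam y v w) x u - fderiv ℝ (fun y => g.Gam y u w) x v
    + g.Gam x u (g.Gam x v w) - g.Gam x v (g.Gam x u w)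

/-- `J` is a Jacobi field along `γ`: it is twice differentiable and
`D²J/dt² + R(J, γ')γ' = 0`. -/
def IsJacobi (γ J : ℝ → Fin n → ℝ) : Prop :=
  Differentiable ℝ J ∧ Differentiable ℝ (deriv J) ∧
    ∀ t, g.covDeriv γ (g.covDeriv γ J) t + g.curv (γ t) (J t) (deriv γ t) (deriv γ t) = 0

/-- No conjugate points: a Jacobi field along a geodesic which vanishes at two different times
vanishes identically. -/
def NoConjugatePoints : Prop :=
  ∀ γ J : ℝ → Fin n → ℝ, g.IsGeodesic γ → g.IsJacobi γ J →
    ∀ a b : ℝ, a ≠ b → J a = 0 → J b = 0 → ∀ t, J t = 0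

/-- The length of the curve `c : [0, 1] → ℝⁿ`. -/
noncomputable def length (c : ℝ → Fin n → ℝ) : ℝ :=
  ∫ t in (0 : ℝ)..1, Real.sqrt (g.inner (c t) (deriv c t) (deriv c t))

/-- The Riemannian distance: the infimum of the lengths of the `C¹` curves from `p` to `q`. -/
noncomputable def dist (p q : Fin n → ℝ) : ℝ :=
  sInf {l | ∃ c : ℝ → Fin n → ℝ, ContDiff ℝ 1 c ∧ c 0 = p ∧ c 1 = q ∧ l = g.length c}

/-- The metric is complete: every sequence which is Cauchy for the Riemannian distance converges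
for the Riemannian distance. -/
def Complete : Prop :=
  ∀ u : ℕ → Fin n → ℝ,
    (∀ ε > 0, ∃ N, ∀ i ≥ N, ∀ j ≥ N, g.dist (u i) (u j) < ε) →
      ∃ x, Filter.Tendsto (fun k => g.dist (u k) x) Filter.atTop (nhds 0)

end RMetric

end Pool.Agent.NC76
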