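import Mathlib
import Pool.Agent.NC76.Defs

/-!
# The metric

`g = (1 + e^{2(x₀-x₁)}) dx₀² + (e^{-2x₀} + e^{-2x₁}) dx₁² + (1 + e^{2(x₁-x₀)}) dx₂² + ∑_{i ≥ 3} dx_i²`
on `ℝ^{m+3}`.
-/

set_option autoImplicit false

namespace Pool.Agent.NC76

open scoped ContDiff

/-- the diagonal coefficients -/
noncomputable def hh (m : ℕ) (x : Fin (m + 3) → ℝ) : Fin (m + 3) → ℝ :=
  Fin.cons (α := fun _ => ℝ) (1 + Real.exp (2 * (x 0 - x 1)))
    (Fin.cons (α := fun _ => ℝ) (Real.exp (-(2 * x 0)) + Real.exp (-(2 * x 1)))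
      (Fin.cons (α := fun _ => ℝ) (1 + Real.exp (2 * (x 1 - x 0))) (fun _ => 1)))

theorem hh_zero (m : ℕ) (x : Fin (m + 3) → ℝ) : hh m x 0 = 1 + Real.exp (2 * (x 0 - x 1)) := rfl

theorem hh_one (m : ℕ) (x : Fin (m + 3) → ℝ) :
    hh m x 1 = Real.exp (-(2 * x 0)) + Real.exp (-(2 * x 1)) := rfl

theorem hh_two (m : ℕ) (x : Fin (m + 3) → ℝ) : hh m x 2 = 1 + Real.exp (2 * (x 1 - x 0)) := rfl

theorem hh_rest (m : ℕ) (x : Fin (m + 3) → ℝ) (i : Fin m) : hh m x i.succ.succ.succ = 1 := rfl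

/-- case distinction on the index -/
theorem fin_cases3 {m : ℕ} {P : Fin (m + 3) → Prop} (h0 : P 0) (h1 : P 1) (h2 : P 2)
    (h3 : ∀ i : Fin m, P i.succ.succ.succ) : ∀ i, P i := by
  intro i
  refine Fin.cases h0 (fun i => ?_) i
  refine Fin.cases h1 (fun i => ?_) i
  refine Fin.cases h2 (fun i => ?_) i
  exact h3 i

/-- splitting a sum -/
theorem sum3 {m : ℕ} (f : Fin (m + 3) → ℝ) :
    ∑ i, f i = f 0 + f 1 + f 2 + ∑ i : Fin m, f i.succ.succ.succ := by
  rw [Fin.sum_univ_succ, Fin.sum_univ_succ, Fin.sum_univ_succ]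
  have e1 : (Fin.succ (0 : Fin (m + 2))) = 1 := rfl
  have e2 : (Fin.succ (Fin.succ (0 : Fin (m + 1)))) = (2 : Fin (m + 3)) := rfl
  rw [e1, e2]
  ring

theorem hh_pos (m : ℕ) (x : Fin (m + 3) → ℝ) : ∀ i, 0 < hh m x i := by
  apply fin_cases3
  · rw [hh_zero]; positivity
  · rw [hh_one]; positivity
  · rw [hh_two]; positivity
  · intro i; rw [hh_rest]; norm_num

theorem hh_smooth (m : ℕ) : ∀ i, ContDiff ℝ ∞ (fun x => hh m x i) := by
  apply fin_cases3
  · simp only [hh_zero]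
    fun_prop
  · simp only [hh_one]
    fun_prop
  · simp only [hh_two]
    fun_prop
  · intro i
    simp only [hh_rest]
    fun_prop

/-- the metric -/
noncomputable def gm (m : ℕ) : RMetric (m + 3) where
  coeff x := Matrix.diagonal (hh m x)
  smooth i j := by
    by_cases hij : i = j
    · subst hij
      simpa using hh_smooth m i
    · simp only [Matrix.diagonal_apply_ne _ hij]
      fun_prop
  posDef x := Matrix.PosDef.diagonal (hh_pos m x)

theorem gm_coeff (m : ℕ) (x : Fin (m + 3) → ℝ) : (gm m).coeff x = Matrix.diagonal (hh m x) := rfl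

theorem inner_eq (m : ℕ) (x u v : Fin (m + 3) → ℝ) :
    (gm m).inner x u v = ∑ i, hh m x i * u i * v i := by
  unfold RMetric.inner
  refine Finset.sum_congr rfl fun i _ => ?_
  rw [Finset.sum_eq_single i]
  · simp [gm_coeff]
  · intro j _ hj
    rw [gm_coeff, Matrix.diagonal_apply_ne _ (Ne.symm hj)]
    ring
  · intro hi
    exact absurd (Finset.mem_univ i) hi

end Pool.Agent.NC76
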