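import Mathlib
import Pool.Agent.NC76.Defs
import Pool.Agent.NC76.Met

/-!
# Completeness of the metric `gm m`

Along a `C¹` curve `c` the integrand `sqrt (inner c' c')` is at least `|c_i'|` for `i ≠ 1`
(all `h_i ≥ 1`), so `|p i - q i| ≤ length c`. Hence `x₀` changes by at most `length c`, so
`h₁ ≥ e^{-2 x₀} ≥ e^{-2 (p 0 + length c)}` along `c` and `|p 1 - q 1| ≤ e^{p 0 + length c} * length c`.
Taking infima: `|p i - q i| ≤ dist p q` for `i ≠ 1`, and
`dist p q < 1 → |p 1 - q 1| ≤ e^{p 0 + 1} dist p q`. A Cauchy sequence for `dist` is therefore Cauchy in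
each coordinate, so it converges to some `x`; and `dist (u k) x → 0` by the length of the straight
segment (the `h_i` are bounded on a ball around `x`).
-/

set_option autoImplicit false

namespace Pool.Agent.NC76

private theorem length_nonneg' {n : ℕ} (g : RMetric n) (c : ℝ → Fin n → ℝ) : 0 ≤ g.length c := by
  unfold RMetric.length
  exact intervalIntegral.integral_nonneg (by norm_num) (fun t _ => Real.sqrt_nonneg _)

/-- lengths are nonnegative and the set in the definition of `dist` is nonempty, so `dist` is at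
most the length of every curve -/
theorem dist_le_length {n : ℕ} (g : RMetric n) (c : ℝ → Fin n → ℝ) (hc : ContDiff ℝ 1 c) :
    g.dist (c 0) (c 1) ≤ g.length c := by
  unfold RMetric.dist
  refine csInf_le ⟨0, ?_⟩ ⟨c, hc, rfl, rfl, rfl⟩
  rintro l ⟨d, _, _, _, rfl⟩
  exact length_nonneg' g d

private theorem dist_nonneg' {n : ℕ} (g : RMetric n) (p q : Fin n → ℝ) : 0 ≤ g.dist p q := by
  unfold RMetric.dist
  refine Real.sInf_nonneg ?_
  rintro l ⟨d, _, _, _, rfl⟩
  exact length_nonneg' g d

/-- the straight segment -/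
private noncomputable def seg {n : ℕ} (p q : Fin n → ℝ) (t : ℝ) : Fin n → ℝ := p + t • (q - p)

private theorem seg_contDiff {n : ℕ} (p q : Fin n → ℝ) : ContDiff ℝ 1 (seg p q) := by
  unfold seg
  fun_prop

private theorem seg_hasDerivAt {n : ℕ} (p q : Fin n → ℝ) (t : ℝ) :
    HasDerivAt (seg p q) (q - p) t := by
  unfold seg
  have h := ((hasDerivAt_id t).smul_const (q - p)).const_add p
  simpa using h

private theorem seg_zero {n : ℕ} (p q : Fin n → ℝ) : seg p q 0 = p := by simp [seg]

private theorem seg_one {n : ℕ} (p q : Fin n → ℝ) : seg p q 1 = q := by simp [seg]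

private theorem set_nonempty {n : ℕ} (g : RMetric n) (p q : Fin n → ℝ) :
    {l | ∃ c : ℝ → Fin n → ℝ, ContDiff ℝ 1 c ∧ c 0 = p ∧ c 1 = q ∧ l = g.length c}.Nonempty :=
  ⟨_, seg p q, seg_contDiff p q, seg_zero p q, seg_one p q, rfl⟩

/-- the speed of a curve -/
private noncomputable def spd (m : ℕ) (c : ℝ → Fin (m + 3) → ℝ) (t : ℝ) : ℝ :=
  Real.sqrt ((gm m).inner (c t) (deriv c t) (deriv c t))

private theorem spd_continuous (m : ℕ) (c : ℝ → Fin (m + 3) → ℝ) (hc : ContDiff ℝ 1 c) :
    Continuous (spd m c) := by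
  unfold spd
  refine Real.continuous_sqrt.comp ?_
  simp only [inner_eq]
  have hd : Continuous (deriv c) := hc.continuous_deriv le_rfl
  have hcc : Continuous c := hc.continuous
  refine continuous_finsetSum _ fun i _ => ?_
  refine Continuous.mul (Continuous.mul ?_ ((continuous_apply i).comp hd))
    ((continuous_apply i).comp hd)
  exact (hh_smooth m i).continuous.comp hcc

private theorem spd_nonneg (m : ℕ) (c : ℝ → Fin (m + 3) → ℝ) (t : ℝ) : 0 ≤ spd m c t :=
  Real.sqrt_nonneg _

private theorem le_spd (m : ℕ) (c : ℝ → Fin (m + 3) → ℝ) (t : ℝ) (i : Fin (m + 3)) :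
    Real.sqrt (hh m (c t) i) * |deriv c t i| ≤ spd m c t := by
  unfold spd
  rw [inner_eq]
  have h1 : Real.sqrt (hh m (c t) i) * |deriv c t i|
      = Real.sqrt (hh m (c t) i * deriv c t i * deriv c t i) := by
    rw [mul_assoc, Real.sqrt_mul (hh_pos m (c t) i).le, Real.sqrt_mul_self_eq_abs]
  rw [h1]
  apply Real.sqrt_le_sqrt
  refine Finset.single_le_sum (f := fun i => hh m (c t) i * deriv c t i * deriv c t i)
    (fun j _ => ?_) (Finset.mem_univ i)
  have := mul_nonneg (hh_pos m (c t) j).le (mul_self_nonneg (deriv c t j))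
  simpa [mul_assoc] using this

private theorem coord_le (m : ℕ) (c : ℝ → Fin (m + 3) → ℝ) (hc : ContDiff ℝ 1 c)
    (i : Fin (m + 3)) (K : ℝ) (hK : 0 ≤ K) (t : ℝ) (ht : t ∈ Set.Icc (0 : ℝ) 1)
    (h : ∀ s ∈ Set.Icc (0 : ℝ) 1, |deriv c s i| ≤ K * spd m c s) :
    |c t i - c 0 i| ≤ K * (gm m).length c := by
  have hd : Continuous (deriv c) := hc.continuous_deriv le_rfl
  have hdi : Continuous (fun s => deriv c s i) := (continuous_apply i).comp hd
  have hs : Continuous (spd m c) := spd_continuous m c hc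
  have e1 : c t i - c 0 i = ∫ s in (0 : ℝ)..t, deriv c s i := by
    rw [intervalIntegral.integral_eq_sub_of_hasDerivAt (f := fun s => c s i)]
    · intro s _
      have h1 : HasDerivAt c (deriv c s) s :=
        ((hc.differentiable (by norm_num)) s).hasDerivAt
      exact (hasDerivAt_pi.1 h1) i
    · exact hdi.intervalIntegrable _ _
  rw [e1]
  calc |∫ s in (0 : ℝ)..t, deriv c s i| ≤ ∫ s in (0 : ℝ)..t, |deriv c s i| :=
        intervalIntegral.abs_integral_le_integral_abs ht.1
    _ ≤ ∫ s in (0 : ℝ)..t, K * spd m c s := by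
        apply intervalIntegral.integral_mono_on ht.1
        · exact (hdi.abs).intervalIntegrable _ _
        · exact (continuous_const.mul hs).intervalIntegrable _ _
        · intro s hs'
          exact h s ⟨hs'.1, hs'.2.trans ht.2⟩
    _ ≤ ∫ s in (0 : ℝ)..1, K * spd m c s := by
        apply intervalIntegral.integral_mono_interval le_rfl ht.1 ht.2
        · refine Filter.Eventually.of_forall fun s => ?_
          exact mul_nonneg hK (spd_nonneg m c s)
        · exact (continuous_const.mul hs).intervalIntegrable _ _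
    _ = K * (gm m).length c := by
        rw [intervalIntegral.integral_const_mul]
        rfl

private theorem one_le_hh (m : ℕ) (x : Fin (m + 3) → ℝ) : ∀ i, i ≠ 1 → 1 ≤ hh m x i := by
  apply fin_cases3
  · intro _
    rw [hh_zero]
    have := Real.exp_pos (2 * (x 0 - x 1))
    linarith
  · intro h
    exact absurd rfl h
  · intro _
    rw [hh_two]
    have := Real.exp_pos (2 * (x 1 - x 0))
    linarith
  · intro i _
    rw [hh_rest]

private theorem coord_ne (m : ℕ) (c : ℝ → Fin (m + 3) → ℝ) (hc : ContDiff ℝ 1 c)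
    (i : Fin (m + 3)) (hi : i ≠ 1) (t : ℝ) (ht : t ∈ Set.Icc (0 : ℝ) 1) :
    |c t i - c 0 i| ≤ (gm m).length c := by
  have h := coord_le m c hc i 1 zero_le_one t ht (fun s _ => ?_)
  · simpa using h
  · rw [one_mul]
    refine le_trans ?_ (le_spd m c s i)
    have h1 : 1 ≤ Real.sqrt (hh m (c s) i) := by
      rw [Real.one_le_sqrt]
      exact one_le_hh m (c s) i hi
    nlinarith [abs_nonneg (deriv c s i)]

private theorem coord_one (m : ℕ) (c : ℝ → Fin (m + 3) → ℝ) (hc : ContDiff ℝ 1 c) :
    |c 1 1 - c 0 1| ≤ Real.exp (c 0 0 + (gm m).length c) * (gm m).length c := by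
  refine coord_le m c hc 1 _ (Real.exp_pos _).le 1 ⟨zero_le_one, le_rfl⟩ (fun s hs => ?_)
  have h0 : |c s 0 - c 0 0| ≤ (gm m).length c := coord_ne m c hc 0 (by
    intro h
    have := congrArg Fin.val h
    simp at this) s hs
  have h1 := le_spd m c s 1
  have h2 : Real.exp (-(c 0 0 + (gm m).length c)) ≤ Real.sqrt (hh m (c s) 1) := by
    apply Real.le_sqrt_of_sq_le
    rw [hh_one, ← Real.exp_nat_mul]
    have h3 : Real.exp (((2 : ℕ) : ℝ) * -(c 0 0 + (gm m).length c))
        ≤ Real.exp (-(2 * c s 0)) := by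
      apply Real.exp_le_exp.2
      push_cast
      have := (abs_le.1 h0).2
      linarith
    have := Real.exp_pos (-(2 * c s 1))
    linarith
  have h4 : Real.exp (-(c 0 0 + (gm m).length c)) * |deriv c s 1| ≤ spd m c s :=
    le_trans (mul_le_mul_of_nonneg_right h2 (abs_nonneg _)) h1
  have h5 : Real.exp (c 0 0 + (gm m).length c) * (Real.exp (-(c 0 0 + (gm m).length c))
      * |deriv c s 1|) = |deriv c s 1| := by
    rw [← mul_assoc, ← Real.exp_add]
    simp
  calc |deriv c s 1| = Real.exp (c 0 0 + (gm m).length c) *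
        (Real.exp (-(c 0 0 + (gm m).length c)) * |deriv c s 1|) := h5.symm
    _ ≤ _ := mul_le_mul_of_nonneg_left h4 (Real.exp_pos _).le

private theorem abs_le_dist (m : ℕ) (p q : Fin (m + 3) → ℝ) (i : Fin (m + 3)) (hi : i ≠ 1) :
    |q i - p i| ≤ (gm m).dist p q := by
  unfold RMetric.dist
  refine le_csInf (set_nonempty (gm m) p q) ?_
  rintro l ⟨c, hc, h0, h1, rfl⟩
  have := coord_ne m c hc i hi 1 ⟨zero_le_one, le_rfl⟩
  rwa [h0, h1] at this

private theorem abs_one_le_dist (m : ℕ) (p q : Fin (m + 3) → ℝ) (hd : (gm m).dist p q < 1) :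
    |q 1 - p 1| ≤ Real.exp (p 0 + 1) * (gm m).dist p q := by
  by_contra hcon
  rw [not_le] at hcon
  have hE := Real.exp_pos (p 0 + 1)
  have h1 : (gm m).dist p q < min 1 (|q 1 - p 1| / Real.exp (p 0 + 1)) := by
    rw [lt_min_iff]
    refine ⟨hd, ?_⟩
    rw [lt_div_iff₀ hE]
    linarith
  have h2 : sInf {l | ∃ c : ℝ → Fin (m + 3) → ℝ, ContDiff ℝ 1 c ∧ c 0 = p ∧ c 1 = q ∧
      l = (gm m).length c} < min 1 (|q 1 - p 1| / Real.exp (p 0 + 1)) := h1
  obtain ⟨l, ⟨c, hc, h0, h1', rfl⟩, hl⟩ := exists_lt_of_csInf_lt (set_nonempty (gm m) p q) h2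
  rw [lt_min_iff, lt_div_iff₀ hE] at hl
  have h3 := coord_one m c hc
  rw [h0, h1'] at h3
  have h4 : Real.exp (p 0 + (gm m).length c) ≤ Real.exp (p 0 + 1) :=
    Real.exp_le_exp.2 (by linarith [hl.1])
  have h5 := mul_le_mul_of_nonneg_right h4 (length_nonneg' (gm m) c)
  linarith [hl.2]

private theorem dist_seg (m : ℕ) (x : Fin (m + 3) → ℝ) : ∃ M : ℝ, 0 ≤ M ∧
    ∀ y : Fin (m + 3) → ℝ, ‖y - x‖ ≤ 1 → (gm m).dist y x ≤ M * ‖y - x‖ := by
  have hcont : Continuous (fun z => ∑ i, hh m z i) :=
    continuous_finsetSum _ fun i _ => (hh_smooth m i).continuous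
  obtain ⟨M, hM⟩ := (isCompact_closedBall x 1).exists_bound_of_continuousOn hcont.continuousOn
  refine ⟨Real.sqrt M, Real.sqrt_nonneg _, fun y hy => ?_⟩
  have hM0 : 0 ≤ M := le_trans (norm_nonneg _) (hM x (Metric.mem_closedBall_self zero_le_one))
  have h1 := dist_le_length (gm m) (seg y x) (seg_contDiff y x)
  rw [seg_zero, seg_one] at h1
  refine h1.trans ?_
  have h2 : ∀ t ∈ Set.Icc (0 : ℝ) 1, spd m (seg y x) t ≤ Real.sqrt M * ‖y - x‖ := by
    intro t ht
    unfold spd
    rw [inner_eq, (seg_hasDerivAt y x t).deriv]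
    have hb : seg y x t ∈ Metric.closedBall x 1 := by
      rw [Metric.mem_closedBall, dist_eq_norm]
      have e : seg y x t - x = (1 - t) • (y - x) := by
        unfold seg
        module
      rw [e, norm_smul, Real.norm_eq_abs, abs_of_nonneg (by linarith [ht.2])]
      have : 1 - t ≤ 1 := by linarith [ht.1]
      nlinarith [norm_nonneg (y - x), ht.2]
    have hMt := hM _ hb
    rw [Real.norm_eq_abs] at hMt
    have hS : ∑ i, hh m (seg y x t) i ≤ M := (le_abs_self _).trans hMt
    have h3 : ∑ i, hh m (seg y x t) i * (x - y) i * (x - y) i ≤ M * ‖y - x‖ ^ 2 := by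
      calc ∑ i, hh m (seg y x t) i * (x - y) i * (x - y) i
          ≤ ∑ i, hh m (seg y x t) i * ‖y - x‖ ^ 2 := by
            refine Finset.sum_le_sum fun i _ => ?_
            rw [mul_assoc]
            refine mul_le_mul_of_nonneg_left ?_ (hh_pos m _ i).le
            have h4 : ‖(x - y) i‖ ≤ ‖x - y‖ := norm_le_pi_norm (x - y) i
            rw [norm_sub_rev x y] at h4
            rw [Real.norm_eq_abs] at h4
            rw [← abs_mul_abs_self ((x - y) i)]
            nlinarith [abs_nonneg ((x - y) i), norm_nonneg (y - x)]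
        _ = (∑ i, hh m (seg y x t) i) * ‖y - x‖ ^ 2 := by rw [Finset.sum_mul]
        _ ≤ M * ‖y - x‖ ^ 2 := mul_le_mul_of_nonneg_right hS (by positivity)
    calc Real.sqrt (∑ i, hh m (seg y x t) i * (x - y) i * (x - y) i)
        ≤ Real.sqrt (M * ‖y - x‖ ^ 2) := Real.sqrt_le_sqrt h3
      _ = Real.sqrt M * ‖y - x‖ := by
          rw [Real.sqrt_mul hM0, Real.sqrt_sq (norm_nonneg _)]
  have h5 : (gm m).length (seg y x) ≤ ∫ _ in (0 : ℝ)..1, Real.sqrt M * ‖y - x‖ := by
    unfold RMetric.length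
    apply intervalIntegral.integral_mono_on zero_le_one
    · exact (spd_continuous m _ (seg_contDiff y x)).intervalIntegrable _ _
    · exact continuous_const.intervalIntegrable _ _
    · intro t ht
      exact h2 t ht
  refine h5.trans ?_
  simp

theorem complete_gm (m : ℕ) : (gm m).Complete := by
  intro u hu
  have hne : ∀ i : Fin (m + 3), i ≠ 1 → CauchySeq (fun k => u k i) := by
    intro i hi
    rw [Metric.cauchySeq_iff]
    intro ε hε
    obtain ⟨N, hN⟩ := hu ε hε
    refine ⟨N, fun a ha b hb => ?_⟩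
    rw [Real.dist_eq]
    exact lt_of_le_of_lt (abs_le_dist m (u b) (u a) i hi) (hN b hb a ha)
  have h0 : CauchySeq (fun k => u k 0) := hne 0 (by
    intro h
    have := congrArg Fin.val h
    simp at this)
  have h1 : CauchySeq (fun k => u k 1) := by
    obtain ⟨N0, hN0⟩ := (Metric.cauchySeq_iff.1 h0) 1 one_pos
    set C : ℝ := Real.exp (u N0 0 + 2) with hC
    have hCpos : 0 < C := Real.exp_pos _
    rw [Metric.cauchySeq_iff]
    intro ε hε
    obtain ⟨N, hN⟩ := hu (min 1 (ε / C)) (lt_min one_pos (div_pos hε hCpos))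
    refine ⟨max N N0, fun a ha b hb => ?_⟩
    have haN : N ≤ a := (le_max_left _ _).trans ha
    have hbN : N ≤ b := (le_max_left _ _).trans hb
    have hbN0 : N0 ≤ b := (le_max_right _ _).trans hb
    have hd := hN b hbN a haN
    rw [lt_min_iff] at hd
    rw [Real.dist_eq]
    refine lt_of_le_of_lt (abs_one_le_dist m (u b) (u a) hd.1) ?_
    have hb0 : u b 0 + 1 ≤ u N0 0 + 2 := by
      have := hN0 b hbN0 N0 le_rfl
      rw [Real.dist_eq] at this
      have := (abs_lt.1 this).2
      linarith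
    have hexp : Real.exp (u b 0 + 1) ≤ C := Real.exp_le_exp.2 hb0
    calc Real.exp (u b 0 + 1) * (gm m).dist (u b) (u a) ≤ C * (gm m).dist (u b) (u a) :=
          mul_le_mul_of_nonneg_right hexp (dist_nonneg' _ _ _)
      _ < C * (ε / C) := mul_lt_mul_of_pos_left hd.2 hCpos
      _ = ε := by field_simp
  have hall : ∀ i : Fin (m + 3), ∃ l : ℝ, Filter.Tendsto (fun k => u k i) Filter.atTop (nhds l) := by
    intro i
    by_cases hi : i = 1
    · subst hi
      exact cauchySeq_tendsto_of_complete h1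
    · exact cauchySeq_tendsto_of_complete (hne i hi)
  choose x hx using hall
  refine ⟨x, ?_⟩
  have hux : Filter.Tendsto u Filter.atTop (nhds x) := tendsto_pi_nhds.2 hx
  obtain ⟨M, hM0, hM⟩ := dist_seg m x
  have hn : Filter.Tendsto (fun k => ‖u k - x‖) Filter.atTop (nhds 0) :=
    tendsto_iff_norm_sub_tendsto_zero.1 hux
  have hMn : Filter.Tendsto (fun k => M * ‖u k - x‖) Filter.atTop (nhds 0) := by
    simpa using hn.const_mul M
  refine squeeze_zero' (Filter.Eventually.of_forall fun k => dist_nonneg' _ _ _) ?_ hMn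
  have hev : ∀ᶠ k in Filter.atTop, ‖u k - x‖ < 1 := hn.eventually (gt_mem_nhds one_pos)
  filter_upwards [hev] with k hk
  exact hM (u k) hk.le

end Pool.Agent.NC76
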