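import Mathlib
import Pool.Agent.NC76.Defs
import Pool.Agent.NC76.Met

/-!
# The two rays

With `τ(s) = (e^{2s} - 1)/2` and `v(s) = 1 + (4/5) τ(s) > 0` the curve
`s ↦ (s, log v(s), c τ(s)/v(s), 0, ...)` with `c = ± 3/5` is a geodesic up to parametrisation; the
arc length is `t = s + τ(s)/v(s)`.
-/

set_option autoImplicit false

namespace Pool.Agent.NC76

/-- the time variable -/
noncomputable def tau (s : ℝ) : ℝ := (Real.exp (2 * s) - 1) / 2

/-- `v = 1 + (4/5) τ` -/
noncomputable def vv (s : ℝ) : ℝ := 1 + 4 / 5 * tau s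

/-- the ray with constant `c`, parametrised by the first coordinate -/
noncomputable def ray (m : ℕ) (c s : ℝ) : Fin (m + 3) → ℝ :=
  Fin.cons (α := fun _ => ℝ) s
    (Fin.cons (α := fun _ => ℝ) (Real.log (vv s))
      (Fin.cons (α := fun _ => ℝ) (c * tau s / vv s) (fun _ => 0)))

end Pool.Agent.NC76
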