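import Mathlib
import Pool.Agent.NC76.Defs
import Pool.Agent.NC76.Met
import Pool.Agent.NC76.Cpl
import Pool.Agent.NC76.RayDef

/-!
# The two rays stay at bounded distance

For `s ≥ 0` put `q = e^{2s} ≥ 1`, `v = vv s`, `w₀ = 1/v`, `z₀ = (3/5) τ/v ∈ [0, 3/4)` and use the
curve `θ ↦ (s, -log w(θ), z₀ (1 - 2(3θ² - 2θ³)), 0, ...)`, `w(θ) = w₀ + z₀ (θ(1-θ))²`, with
`w' = 2 z₀ θ(1-θ)(1-2θ)`, `z' = -12 z₀ θ(1-θ)`. Its speed at `θ ∈ [0,1]` is at most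
`(1/√q + w)|w'|/w + (1 + 1/(√q w))|z'| = |w'| + |z'| + (|w'| + |z'|)/(√q w)`, and
`w ≥ 2 √(w₀ z₀) θ(1-θ)` gives `(|w'| + |z'|)/(√q w) ≤ 7 √(z₀ v/q) ≤ 7` because `v ≤ q`. So the length is
at most an absolute constant.
-/

set_option autoImplicit false

namespace Pool.Agent.NC76

/-- the function `w` -/
private noncomputable def wf (w₀ z₀ θ : ℝ) : ℝ := w₀ + z₀ * (θ * (1 - θ)) ^ 2

/-- the third coordinate -/
private noncomputable def zf (z₀ θ : ℝ) : ℝ := z₀ * (1 - 2 * (3 * θ ^ 2 - 2 * θ ^ 3))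

/-- the curve -/
private noncomputable def crv (m : ℕ) (s w₀ z₀ θ : ℝ) : Fin (m + 3) → ℝ :=
  Fin.cons (α := fun _ => ℝ) s
    (Fin.cons (α := fun _ => ℝ) (-Real.log (wf w₀ z₀ θ))
      (Fin.cons (α := fun _ => ℝ) (zf z₀ θ) (fun _ => 0)))

/-- its derivative -/
private noncomputable def crv' (m : ℕ) (w₀ z₀ θ : ℝ) : Fin (m + 3) → ℝ :=
  Fin.cons (α := fun _ => ℝ) 0
    (Fin.cons (α := fun _ => ℝ) (-(2 * z₀ * (θ * (1 - θ)) * (1 - 2 * θ) / wf w₀ z₀ θ))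
      (Fin.cons (α := fun _ => ℝ) (-(12 * z₀ * (θ * (1 - θ)))) (fun _ => 0)))

private theorem wf_pos {w₀ z₀ : ℝ} (hw : 0 < w₀) (hz : 0 ≤ z₀) (θ : ℝ) : 0 < wf w₀ z₀ θ := by
  unfold wf
  positivity

private theorem hasDerivAt_wf (w₀ z₀ θ : ℝ) :
    HasDerivAt (wf w₀ z₀) (2 * z₀ * (θ * (1 - θ)) * (1 - 2 * θ)) θ := by
  unfold wf
  have h1 : HasDerivAt (fun θ : ℝ => θ * (1 - θ)) (1 * (1 - θ) + θ * (0 - 1)) θ :=
    (hasDerivAt_id θ).mul ((hasDerivAt_const θ 1).sub (hasDerivAt_id θ))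
  have h2 := ((h1.pow 2).const_mul z₀).const_add w₀
  refine h2.congr_deriv ?_
  simp only [Nat.cast_ofNat, Nat.add_one_sub_one, pow_one]
  ring

private theorem hasDerivAt_zf (z₀ θ : ℝ) :
    HasDerivAt (zf z₀) (-(12 * z₀ * (θ * (1 - θ)))) θ := by
  unfold zf
  have h1 := ((((hasDerivAt_pow 2 θ).const_mul 3).sub ((hasDerivAt_pow 3 θ).const_mul 2)).const_mul
    2).const_sub 1 |>.const_mul z₀
  refine h1.congr_deriv ?_
  simp only [Nat.cast_ofNat, Nat.add_one_sub_one, pow_one]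
  ring

private theorem hasDerivAt_crv (m : ℕ) (s : ℝ) {w₀ z₀ : ℝ} (hw : 0 < w₀) (hz : 0 ≤ z₀) (θ : ℝ) :
    HasDerivAt (crv m s w₀ z₀) (crv' m w₀ z₀ θ) θ := by
  rw [hasDerivAt_pi]
  apply fin_cases3
  · exact hasDerivAt_const θ s
  · exact ((hasDerivAt_wf w₀ z₀ θ).log (wf_pos hw hz θ).ne').neg
  · exact hasDerivAt_zf z₀ θ
  · intro i
    exact hasDerivAt_const θ 0

private theorem contDiff_crv (m : ℕ) (s : ℝ) {w₀ z₀ : ℝ} (hw : 0 < w₀) (hz : 0 ≤ z₀) :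
    ContDiff ℝ 1 (crv m s w₀ z₀) := by
  rw [contDiff_pi]
  apply fin_cases3
  · exact contDiff_const
  · have h1 : ContDiff ℝ 1 (wf w₀ z₀) := by
      unfold wf
      fun_prop
    exact (h1.log fun θ => (wf_pos hw hz θ).ne').neg
  · change ContDiff ℝ 1 (zf z₀)
    unfold zf
    fun_prop
  · intro i
    exact contDiff_const

private theorem inner_crv (m : ℕ) (s : ℝ) {w₀ z₀ : ℝ} (hw : 0 < w₀) (hz : 0 ≤ z₀) (θ : ℝ) :
    (gm m).inner (crv m s w₀ z₀ θ) (crv' m w₀ z₀ θ) (crv' m w₀ z₀ θ) =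
      ((2 * z₀ * (θ * (1 - θ)) * (1 - 2 * θ)) ^ 2 + (12 * z₀ * (θ * (1 - θ))) ^ 2) *
        (1 + 1 / (Real.exp (2 * s) * wf w₀ z₀ θ ^ 2)) := by
  have hp := wf_pos hw hz θ
  rw [inner_eq, sum3, hh_one, hh_two]
  have c0 : crv' m w₀ z₀ θ 0 = 0 := rfl
  have c1 : crv' m w₀ z₀ θ 1 = -(2 * z₀ * (θ * (1 - θ)) * (1 - 2 * θ) / wf w₀ z₀ θ) := rfl
  have c2 : crv' m w₀ z₀ θ 2 = -(12 * z₀ * (θ * (1 - θ))) := rfl
  have c3 : ∀ i : Fin m, crv' m w₀ z₀ θ i.succ.succ.succ = 0 := fun i => rfl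
  have d0 : crv m s w₀ z₀ θ 0 = s := rfl
  have d1 : crv m s w₀ z₀ θ 1 = -Real.log (wf w₀ z₀ θ) := rfl
  simp only [c0, c1, c2, c3, d0, d1, mul_zero, Finset.sum_const_zero, add_zero, zero_add]
  have e1 : Real.exp (-(2 * s)) = 1 / Real.exp (2 * s) := by
    rw [Real.exp_neg, one_div]
  have e2 : Real.exp (-(2 * -Real.log (wf w₀ z₀ θ))) = wf w₀ z₀ θ ^ 2 := by
    rw [mul_neg, neg_neg, two_mul, Real.exp_add, Real.exp_log hp]
    ring
  have e3 : Real.exp (2 * (-Real.log (wf w₀ z₀ θ) - s)) =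
      1 / (Real.exp (2 * s) * wf w₀ z₀ θ ^ 2) := by
    have : 2 * (-Real.log (wf w₀ z₀ θ) - s) = -(2 * s + (Real.log (wf w₀ z₀ θ) +
      Real.log (wf w₀ z₀ θ))) := by ring
    rw [this, Real.exp_neg, Real.exp_add, Real.exp_add, Real.exp_log hp, one_div]
    ring_nf
  rw [e1, e2, e3]
  have hq : Real.exp (2 * s) ≠ 0 := (Real.exp_pos _).ne'
  have hp' := hp.ne'
  field_simp
  ring

theorem bounded_dist (m : ℕ) : ∃ C : ℝ, ∀ s ≥ 0,
    (gm m).dist (ray m (3 / 5) s) (ray m (-(3 / 5)) s) ≤ C := by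
  refine ⟨6, fun s hs => ?_⟩
  set q := Real.exp (2 * s) with hq
  have hq1 : 1 ≤ q := Real.one_le_exp (by linarith)
  have hv : vv s = (3 + 2 * q) / 5 := by
    unfold vv tau
    rw [← hq]
    ring
  have hvpos : 0 < vv s := by rw [hv]; positivity
  have hvq : vv s ≤ q := by rw [hv]; linarith
  set w₀ := 1 / vv s with hw₀
  set z₀ := 3 / 5 * tau s / vv s with hz₀
  have hw : 0 < w₀ := by positivity
  have htau : tau s = (q - 1) / 2 := rfl
  have hz : 0 ≤ z₀ := by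
    rw [hz₀, htau]
    apply div_nonneg _ hvpos.le
    linarith
  have hz1 : z₀ ≤ 3 / 4 := by
    rw [hz₀, div_le_iff₀ hvpos, htau, hv]
    linarith
  have h0 : crv m s w₀ z₀ 0 = ray m (3 / 5) s := by
    funext i
    revert i
    apply fin_cases3
    · rfl
    · change -Real.log (wf w₀ z₀ 0) = Real.log (vv s)
      unfold wf
      rw [← Real.log_inv]
      congr 1
      rw [hw₀]
      norm_num
    · change zf z₀ 0 = 3 / 5 * tau s / vv s
      unfold zf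
      rw [← hz₀]
      norm_num
    · intro i
      rfl
  have h1 : crv m s w₀ z₀ 1 = ray m (-(3 / 5)) s := by
    funext i
    revert i
    apply fin_cases3
    · rfl
    · change -Real.log (wf w₀ z₀ 1) = Real.log (vv s)
      unfold wf
      rw [← Real.log_inv]
      congr 1
      rw [hw₀]
      norm_num
    · change zf z₀ 1 = -(3 / 5) * tau s / vv s
      unfold zf
      rw [hz₀]
      ring
    · intro i
      rfl
  rw [← h0, ← h1]
  refine (dist_le_length (gm m) (crv m s w₀ z₀) (contDiff_crv m s hw hz)).trans ?_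
  unfold RMetric.length
  refine (le_abs_self _).trans ?_
  have hmain := intervalIntegral.norm_integral_le_of_norm_le_const (a := 0) (b := 1) (C := 6)
    (f := fun t => Real.sqrt ((gm m).inner (crv m s w₀ z₀ t) (deriv (crv m s w₀ z₀) t)
      (deriv (crv m s w₀ z₀) t))) ?_
  · rw [Real.norm_eq_abs] at hmain
    norm_num at hmain
    exact hmain
  · intro θ hθ
    rw [Set.uIoc_of_le zero_le_one] at hθ
    obtain ⟨ht0, ht1⟩ := hθ
    rw [Real.norm_eq_abs, abs_of_nonneg (Real.sqrt_nonneg _), (hasDerivAt_crv m s hw hz θ).deriv,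
      inner_crv m s hw hz θ, ← hq]
    rw [show (6 : ℝ) = Real.sqrt (6 ^ 2) by rw [Real.sqrt_sq]; norm_num]
    apply Real.sqrt_le_sqrt
    set u := θ * (1 - θ) with hu
    have hu0 : 0 ≤ u := mul_nonneg ht0.le (by linarith)
    have hu1 : u ≤ 1 / 4 := by
      rw [hu]
      nlinarith [sq_nonneg (θ - 1 / 2)]
    have hW := wf_pos hw hz θ
    have hWdef : wf w₀ z₀ θ = w₀ + z₀ * u ^ 2 := rfl
    set W := wf w₀ z₀ θ with hWW
    have hb1 : (1 - 2 * θ) ^ 2 ≤ 1 := by nlinarith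
    have hnum : (2 * z₀ * u * (1 - 2 * θ)) ^ 2 + (12 * z₀ * u) ^ 2 ≤ 148 * (z₀ * u) ^ 2 := by
      have : (2 * z₀ * u * (1 - 2 * θ)) ^ 2 = 4 * (z₀ * u) ^ 2 * (1 - 2 * θ) ^ 2 := by ring
      rw [this]
      nlinarith [mul_le_mul_of_nonneg_left hb1 (sq_nonneg (z₀ * u))]
    have hW2 : 4 * w₀ * z₀ * u ^ 2 ≤ W ^ 2 := by
      rw [hWdef]
      nlinarith [sq_nonneg (w₀ - z₀ * u ^ 2)]
    have hwv : w₀ * vv s = 1 := by
      rw [hw₀]
      field_simp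
    have hkey : (z₀ * u) ^ 2 / (q * W ^ 2) ≤ 3 / 16 := by
      rw [div_le_iff₀ (by positivity)]
      have h3 : (z₀ * u) ^ 2 ≤ z₀ / 4 * (vv s * W ^ 2) := by
        have h4 := mul_le_mul_of_nonneg_left hW2 (mul_nonneg hz hvpos.le)
        have h5 : z₀ * vv s * (4 * w₀ * z₀ * u ^ 2) = 4 * (z₀ * u) ^ 2 * (w₀ * vv s) := by ring
        rw [h5, hwv] at h4
        linarith
      have h6 : vv s * W ^ 2 ≤ q * W ^ 2 := mul_le_mul_of_nonneg_right hvq (sq_nonneg _)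
      have h7 : 0 ≤ q * W ^ 2 := by positivity
      nlinarith
    have hzu : (z₀ * u) ^ 2 ≤ 9 / 256 := by
      have h8 : z₀ * u ≤ 3 / 4 * (1 / 4) := mul_le_mul hz1 hu1 hu0 (by norm_num)
      have h9 : 0 ≤ z₀ * u := mul_nonneg hz hu0
      nlinarith
    have hq0 : 0 < q * W ^ 2 := by positivity
    calc ((2 * z₀ * u * (1 - 2 * θ)) ^ 2 + (12 * z₀ * u) ^ 2) * (1 + 1 / (q * W ^ 2))
        ≤ 148 * (z₀ * u) ^ 2 * (1 + 1 / (q * W ^ 2)) :=
          mul_le_mul_of_nonneg_right hnum (by positivity)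
      _ = 148 * (z₀ * u) ^ 2 + 148 * ((z₀ * u) ^ 2 / (q * W ^ 2)) := by ring
      _ ≤ 6 ^ 2 := by linarith

end Pool.Agent.NC76
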