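import Mathlib

/-!
# The core lemma: a linearised trajectory vanishing at both ends vanishes

See the note MP_3d5957_counterexample_helper76.md.
-/

set_option autoImplicit false

namespace Pool.Agent.NC76

private lemma core_alg1 (q v A B C kap sig2 dq dv dA dB dC dkap dsig2 mu dmu : ℝ) (hq : 0 < q)
    (hv : 0 < v) (hmu : mu = q * v ^ 2 / (q + v ^ 2))
    (hdmu : dmu = mu ^ 2 * (dq / q ^ 2 + 2 * dv / v ^ 3))
    (r1 : A ^ 2 = 4 * (sig2 - kap * q)) (r2 : B ^ 2 + C ^ 2 = sig2 + kap * v ^ 2)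
    (dr1 : A * dA = 2 * (dsig2 - dkap * q - kap * dq))
    (dr2 : 2 * B * dB + 2 * C * dC = dsig2 + dkap * v ^ 2 + 2 * kap * v * dv) :
    ((-2 * kap * mu) * dq + A * (dA * mu + A * dmu)) / (4 * q)
      - A * dq * (A * mu) / (4 * q ^ 2)
      + ((kap * v * mu) * dv + B * (dB * mu + B * dmu)) / v ^ 2 - 2 * B * dv * (B * mu) / v ^ 3
      + C * (dC * mu / v ^ 2 - 2 * C * mu * dv / v ^ 3 + C * dmu / v ^ 2) = dsig2 / 2 := by
  have h1 : mu * (1 / q + 1 / v ^ 2) = 1 := by
    rw [hmu]
    field_simp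
    ring
  have h2 : dmu = mu ^ 2 * (dq / q ^ 2 + 2 * dv / v ^ 3) := hdmu
  have e : ((-2 * kap * mu) * dq + A * (dA * mu + A * dmu)) / (4 * q)
      - A * dq * (A * mu) / (4 * q ^ 2)
      + ((kap * v * mu) * dv + B * (dB * mu + B * dmu)) / v ^ 2 - 2 * B * dv * (B * mu) / v ^ 3
      + C * (dC * mu / v ^ 2 - 2 * C * mu * dv / v ^ 3 + C * dmu / v ^ 2) =
      (A ^ 2) * (dmu / (4 * q) - dq * mu / (4 * q ^ 2)) + (A * dA) * (mu / (4 * q))
      + (B ^ 2 + C ^ 2) * (dmu / v ^ 2 - 2 * dv * mu / v ^ 3)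
      + (2 * B * dB + 2 * C * dC) * (mu / (2 * v ^ 2))
      - kap * mu * dq / (2 * q) + kap * mu * dv / v := by
    field_simp
    ring
  rw [e, r1, r2, dr1, dr2]
  have e2 : (4 * (sig2 - kap * q)) * (dmu / (4 * q) - dq * mu / (4 * q ^ 2))
      + (2 * (dsig2 - dkap * q - kap * dq)) * (mu / (4 * q))
      + (sig2 + kap * v ^ 2) * (dmu / v ^ 2 - 2 * dv * mu / v ^ 3)
      + (dsig2 + dkap * v ^ 2 + 2 * kap * v * dv) * (mu / (2 * v ^ 2))
      - kap * mu * dq / (2 * q) + kap * mu * dv / v =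
      sig2 * (dmu * (1 / q + 1 / v ^ 2) - mu * (dq / q ^ 2 + 2 * dv / v ^ 3))
        + dsig2 / 2 * (mu * (1 / q + 1 / v ^ 2)) := by
    field_simp
    ring
  rw [e2, h1, h2]
  have e3 : mu ^ 2 * (dq / q ^ 2 + 2 * dv / v ^ 3) * (1 / q + 1 / v ^ 2) =
      mu * (dq / q ^ 2 + 2 * dv / v ^ 3) * (mu * (1 / q + 1 / v ^ 2)) := by ring
  rw [e3, h1]
  ring

private lemma core_mv {f f' : ℝ → ℝ} (h : ∀ t, HasDerivAt f (f' t) t) {a b : ℝ} (hab : a < b) :
    ∃ c, a < c ∧ c < b ∧ f b - f a = f' c * (b - a) := by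
  obtain ⟨c, hc, h1⟩ := exists_hasDerivAt_eq_slope f f' hab
    (fun t _ => (h t).continuousAt.continuousWithinAt) (fun t _ => h t)
  refine ⟨c, hc.1, hc.2, ?_⟩
  rw [h1]
  have : b - a ≠ 0 := by linarith
  field_simp

private lemma core_const {f : ℝ → ℝ} (h : ∀ t, HasDerivAt f 0 t) (x y : ℝ) : f x = f y :=
  is_const_of_deriv_eq_zero (fun t => (h t).differentiableAt) (fun t => (h t).deriv) x y

private lemma core_alg2 (v B C kap sig2 dv dB dC dkap c τ θ rho mu : ℝ) (hv : 0 < v)
    (r2 : B ^ 2 + C ^ 2 = sig2 + kap * v ^ 2)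
    (dr2 : 2 * B * dB + 2 * C * dC = dkap * v ^ 2 + 2 * kap * v * dv)
    (hβ : v * rho = dv - B * θ + c * τ * B) :
    2 * (((kap * v * mu) * v - B * (B * mu)) / v ^ 2 * rho +
      (B / v) * (mu * (v * (dB - kap * v * θ + c * (B + τ * kap * v)) - B * (v * rho)) / v ^ 2))
      + 2 * (C * (mu * (dC + c * C - 2 * C * rho) / v ^ 2)) =
      mu * (dkap + 2 * c * kap - 4 * sig2 * rho / v ^ 2 + 2 * sig2 * c / v ^ 2) := by
  have e1 : 2 * (((kap * v * mu) * v - B * (B * mu)) / v ^ 2 * rho +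
      (B / v) * (mu * (v * (dB - kap * v * θ + c * (B + τ * kap * v)) - B * (v * rho)) / v ^ 2))
      + 2 * (C * (mu * (dC + c * C - 2 * C * rho) / v ^ 2)) =
      mu / v ^ 2 * (2 * (kap * v ^ 2 - B ^ 2) * rho +
        2 * B * (dB - kap * v * θ + c * (B + τ * kap * v) - B * rho) +
        2 * C * (dC + c * C - 2 * C * rho)) := by
    field_simp
  have e2 : mu * (dkap + 2 * c * kap - 4 * sig2 * rho / v ^ 2 + 2 * sig2 * c / v ^ 2) =
      mu / v ^ 2 * ((dkap + 2 * c * kap) * v ^ 2 - 4 * sig2 * rho + 2 * sig2 * c) := by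
    field_simp
  rw [e1, e2]
  congr 1
  linear_combination (-4 * rho + 2 * c) * r2 + dr2 - 2 * kap * v * hβ

/-- a function with `rho' = mu m / v ^ 2`, `m` strictly monotone, and `rho a = rho b = 0` -/
private lemma core_sign {rho m mu v : ℝ → ℝ} {a b : ℝ} (hmu : ∀ t, 0 < mu t) (hv : ∀ t, 0 < v t)
    (Hrho : ∀ t, HasDerivAt rho (mu t * m t / v t ^ 2) t) (hm : ∀ s t, s < t → m s < m t)
    (ra : rho a = 0) (rb : rho b = 0) (t : ℝ) (h1 : a ≤ t) (h2 : t ≤ b) : rho t ≤ 0 := by
  by_contra hcon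
  push Not at hcon
  have hat : a < t := lt_of_le_of_ne h1 fun h => by rw [← h, ra] at hcon; exact lt_irrefl _ hcon
  have htb : t < b := lt_of_le_of_ne h2 fun h => by rw [h, rb] at hcon; exact lt_irrefl _ hcon
  obtain ⟨s1, h3, h4, h5⟩ := core_mv Hrho hat
  obtain ⟨s2, h6, h7, h8⟩ := core_mv Hrho htb
  have hs : m s1 < m s2 := hm _ _ (h4.trans h6)
  have p1 : 0 < m s1 := by
    by_contra hneg
    push Not at hneg
    have k1 : mu s1 * m s1 / v s1 ^ 2 * (t - a) ≤ 0 := by
      have h9 : mu s1 * m s1 ≤ 0 := mul_nonpos_of_nonneg_of_nonpos (hmu s1).le hneg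
      have h10 : mu s1 * m s1 / v s1 ^ 2 ≤ 0 := div_nonpos_of_nonpos_of_nonneg h9 (by positivity)
      exact mul_nonpos_of_nonpos_of_nonneg h10 (by linarith)
    rw [← h5, ra] at k1
    linarith
  have p2 : 0 < m s2 := p1.trans hs
  have k2 : 0 < mu s2 * m s2 / v s2 ^ 2 * (b - t) := by
    have h9 := hmu s2
    have h10 := hv s2
    have h11 : 0 < b - t := by linarith
    positivity
  rw [← h8, rb] at k2
  linarith

private lemma core_dl {rho m Q mu v : ℝ → ℝ} {a b dl sig2 c R T th : ℝ} (hab : a < b)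
    (hmup : ∀ t, 0 < mu t) (hv : ∀ t, 0 < v t) (hsig : 0 ≤ sig2) (hT : 0 < T) (hR : 0 < R)
    (Hm : ∀ t, HasDerivAt m (mu t * dl * v t ^ 2) t)
    (Hrho : ∀ t, HasDerivAt rho (mu t * m t / v t ^ 2) t)
    (HQ : ∀ t, HasDerivAt Q
      (mu t * (dl - 4 * sig2 * rho t / v t ^ 2 + 2 * sig2 * c / v t ^ 2)) t)
    (ra : rho a = 0) (rb : rho b = 0) (Qa : Q a = 0) (Qb : Q b = 0)
    (hX : R * (T * dl) = 2 * sig2 * th) (hc : c = th / T) : dl = 0 := by
  rcases lt_trichotomy dl 0 with hl | hl | hl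
  · exfalso
    have h1 : 2 * sig2 * th < 0 := by
      rw [← hX]
      exact mul_neg_of_pos_of_neg hR (mul_neg_of_pos_of_neg hT hl)
    have h2 : th < 0 := by
      by_contra hneg
      push Not at hneg
      have : 0 ≤ 2 * sig2 * th := by positivity
      linarith
    have h3 : c < 0 := by
      rw [hc]
      exact div_neg_of_neg_of_pos h2 hT
    have hr : ∀ t, a ≤ t → t ≤ b → 0 ≤ rho t := by
      intro t ht1 ht2
      have Hrho' : ∀ t, HasDerivAt (fun t => - rho t) (mu t * (- m t) / v t ^ 2) t := fun t => by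
        refine (Hrho t).neg.congr_deriv ?_
        ring
      have := core_sign (rho := fun t => - rho t) (m := fun t => - m t) (a := a) (b := b) hmup hv
        Hrho' (fun s t hst => by
          obtain ⟨x, _, _, hx⟩ := core_mv Hm hst
          have h4 : mu x * dl * v x ^ 2 * (t - s) < 0 := by
            have h5 := hmup x
            have h6 := hv x
            have h7 : 0 < t - s := by linarith
            have h8 : 0 < mu x * v x ^ 2 * (t - s) := by positivity
            have h9 : mu x * dl * v x ^ 2 * (t - s) = mu x * v x ^ 2 * (t - s) * dl := by ring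
            rw [h9]
            exact mul_neg_of_pos_of_neg h8 hl
          linarith) (by simp [ra]) (by simp [rb]) t ht1 ht2
      linarith
    obtain ⟨s, hs1, hs2, hs3⟩ := core_mv HQ hab
    rw [Qa, Qb, sub_self] at hs3
    have h4 : dl - 4 * sig2 * rho s / v s ^ 2 + 2 * sig2 * c / v s ^ 2 < 0 := by
      have h5 : 0 ≤ 4 * sig2 * rho s / v s ^ 2 := by
        have := hr s hs1.le hs2.le
        positivity
      have h6 : 2 * sig2 * c / v s ^ 2 ≤ 0 := by
        apply div_nonpos_of_nonpos_of_nonneg _ (by positivity)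
        exact mul_nonpos_of_nonneg_of_nonpos (by positivity) h3.le
      linarith
    have h5 : mu s * (dl - 4 * sig2 * rho s / v s ^ 2 + 2 * sig2 * c / v s ^ 2) * (b - a) < 0 :=
      mul_neg_of_neg_of_pos (mul_neg_of_pos_of_neg (hmup s) h4) (by linarith)
    linarith
  · exact hl
  · exfalso
    have h1 : 0 < 2 * sig2 * th := by
      rw [← hX]
      exact mul_pos hR (mul_pos hT hl)
    have h2 : 0 < th := by
      by_contra hneg
      push Not at hneg
      have : 2 * sig2 * th ≤ 0 := mul_nonpos_of_nonneg_of_nonpos (by positivity) hneg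
      linarith
    have h3 : 0 < c := by
      rw [hc]
      exact div_pos h2 hT
    have hr : ∀ t, a ≤ t → t ≤ b → rho t ≤ 0 :=
      core_sign hmup hv Hrho (fun s t hst => by
        obtain ⟨x, _, _, hx⟩ := core_mv Hm hst
        have h4 : 0 < mu x * dl * v x ^ 2 * (t - s) := by
          have h5 := hmup x
          have h6 := hv x
          have h7 : 0 < t - s := by linarith
          positivity
        linarith) ra rb
    obtain ⟨s, hs1, hs2, hs3⟩ := core_mv HQ hab
    rw [Qa, Qb, sub_self] at hs3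
    have h4 : 0 < dl - 4 * sig2 * rho s / v s ^ 2 + 2 * sig2 * c / v s ^ 2 := by
      have h5 : 4 * sig2 * rho s / v s ^ 2 ≤ 0 := by
        apply div_nonpos_of_nonpos_of_nonneg _ (by positivity)
        exact mul_nonpos_of_nonneg_of_nonpos (by positivity) (hr s hs1.le hs2.le)
      have h6 : 0 ≤ 2 * sig2 * c / v s ^ 2 := by positivity
      linarith
    have h5 : 0 < mu s * (dl - 4 * sig2 * rho s / v s ^ 2 + 2 * sig2 * c / v s ^ 2) * (b - a) :=
      mul_pos (mul_pos (hmup s) h4) (by linarith)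
    linarith

private lemma core_end {A B C kap sig2 q v dA dB dC c : ℝ} (hq : 0 < q) (hv : 0 < v)
    (h1 : A ^ 2 = 4 * (sig2 - kap * q)) (h2 : B ^ 2 + C ^ 2 = sig2 + kap * v ^ 2)
    (gA : dA + c * A = 0) (gB : dB + c * B = 0) (gC : dC + c * C = 0) (h0 : sig2 = 0 ∨ c = 0) :
    dA = 0 ∧ dB = 0 ∧ dC = 0 := by
  rcases h0 with h0 | h0
  · rw [h0] at h1 h2
    have sA := sq_nonneg A
    have sB := sq_nonneg B
    have sC := sq_nonneg C
    have h3 : kap = 0 := by
      have h4 : kap ≤ 0 := by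
        by_contra hneg
        push Not at hneg
        have h5 := mul_pos hneg hq
        linarith
      have h6 : 0 ≤ kap := by
        by_contra hneg
        push Not at hneg
        have h5 : kap * v ^ 2 < 0 := mul_neg_of_neg_of_pos hneg (pow_pos hv 2)
        linarith
      linarith
    rw [h3, zero_mul] at h1 h2
    have hA0 : A = 0 := (pow_eq_zero_iff two_ne_zero).1 (by linarith : A ^ 2 = 0)
    have hB0 : B = 0 := (pow_eq_zero_iff two_ne_zero).1 (by linarith : B ^ 2 = 0)
    have hC0 : C = 0 := (pow_eq_zero_iff two_ne_zero).1 (by linarith : C ^ 2 = 0)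
    rw [hA0, mul_zero, add_zero] at gA
    rw [hB0, mul_zero, add_zero] at gB
    rw [hC0, mul_zero, add_zero] at gC
    exact ⟨gA, gB, gC⟩
  · rw [h0, zero_mul, add_zero] at gA gB gC
    exact ⟨gA, gB, gC⟩

theorem core
    (q v A B dq dv dz dA dB mu dmu : ℝ → ℝ) (C kap sig2 dC dkap dsig2 a b : ℝ)
    (hab : a < b)
    (hq : ∀ t, 0 < q t) (hv : ∀ t, 0 < v t) (hsig : 0 ≤ sig2)
    (hmu : ∀ t, mu t = q t * v t ^ 2 / (q t + v t ^ 2))
    (hdmu : ∀ t, dmu t = mu t ^ 2 * (dq t / q t ^ 2 + 2 * dv t / v t ^ 3))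
    (Hq : ∀ t, HasDerivAt q (A t * mu t) t)
    (Hv : ∀ t, HasDerivAt v (B t * mu t) t)
    (HA : ∀ t, HasDerivAt A (-2 * kap * mu t) t)
    (HB : ∀ t, HasDerivAt B (kap * v t * mu t) t)
    (Hdq : ∀ t, HasDerivAt dq (dA t * mu t + A t * dmu t) t)
    (Hdv : ∀ t, HasDerivAt dv (dB t * mu t + B t * dmu t) t)
    (Hdz : ∀ t, HasDerivAt dz
      (dC * mu t / v t ^ 2 - 2 * C * mu t * dv t / v t ^ 3 + C * dmu t / v t ^ 2) t)
    (HdA : ∀ t, HasDerivAt dA (-2 * dkap * mu t - 2 * kap * dmu t) t)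
    (HdB : ∀ t, HasDerivAt dB
      (dkap * v t * mu t + kap * dv t * mu t + kap * v t * dmu t) t)
    (r1 : ∀ t, A t ^ 2 = 4 * (sig2 - kap * q t))
    (r2 : ∀ t, B t ^ 2 + C ^ 2 = sig2 + kap * v t ^ 2)
    (dr1 : ∀ t, A t * dA t = 2 * (dsig2 - dkap * q t - kap * dq t))
    (dr2 : ∀ t, 2 * B t * dB t + 2 * C * dC
      = dsig2 + dkap * v t ^ 2 + 2 * kap * v t * dv t)
    (qa : dq a = 0) (qb : dq b = 0) (va : dv a = 0) (vb : dv b = 0)
    (za : dz a = 0) (zb : dz b = 0) :
    dA a = 0 ∧ dB a = 0 ∧ dC = 0 := by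
  have hqv : ∀ t, 0 < q t + v t ^ 2 := fun t => by
    have := hq t
    positivity
  have hmup : ∀ t, 0 < mu t := fun t => by
    rw [hmu]
    have h1 := hq t
    have h2 := hv t
    positivity
  have cq : Continuous q := continuous_iff_continuousAt.2 fun t => (Hq t).continuousAt
  have cv : Continuous v := continuous_iff_continuousAt.2 fun t => (Hv t).continuousAt
  have cdq : Continuous dq := continuous_iff_continuousAt.2 fun t => (Hdq t).continuousAt
  have cdv : Continuous dv := continuous_iff_continuousAt.2 fun t => (Hdv t).continuousAt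
  have cmu : Continuous mu := by
    have h1 : mu = fun t => q t * v t ^ 2 / (q t + v t ^ 2) := funext hmu
    rw [h1]
    exact (cq.mul (cv.pow 2)).div (cq.add (cv.pow 2)) fun t => (hqv t).ne'
  have cdmu : Continuous dmu := by
    have h1 : dmu = fun t => mu t ^ 2 * (dq t / q t ^ 2 + 2 * dv t / v t ^ 3) := funext hdmu
    rw [h1]
    exact (cmu.pow 2).mul ((cdq.div (cq.pow 2) fun t => (pow_pos (hq t) 2).ne').add
      ((cdv.const_mul 2).div (cv.pow 3) fun t => (pow_pos (hv t) 3).ne'))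
  obtain ⟨τ, hτa, Hτ⟩ : ∃ τ : ℝ → ℝ, τ a = 0 ∧ ∀ t, HasDerivAt τ (mu t) t :=
    ⟨fun t => ∫ s in a..t, mu s, intervalIntegral.integral_same, fun t =>
      (cmu.integral_hasStrictDerivAt a t).hasDerivAt⟩
  obtain ⟨θ, hθa, Hθ⟩ : ∃ θ : ℝ → ℝ, θ a = 0 ∧ ∀ t, HasDerivAt θ (dmu t) t :=
    ⟨fun t => ∫ s in a..t, dmu s, intervalIntegral.integral_same, fun t =>
      (cdmu.integral_hasStrictDerivAt a t).hasDerivAt⟩
  have hT : 0 < τ b := by
    obtain ⟨s, _, _, h1⟩ := core_mv Hτ hab
    rw [hτa, sub_zero] at h1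
    rw [h1]
    exact mul_pos (hmup s) (by linarith)
  -- the variation of the speed vanishes
  have hsig0 : dsig2 = 0 := by
    have Hw : ∀ t, HasDerivAt
        (fun t => A t * dq t / (4 * q t) + B t * dv t / v t ^ 2 + C * dz t) (dsig2 / 2) t := by
      intro t
      have h1 := ((HA t).mul (Hdq t)).div ((Hq t).const_mul 4)
        (mul_ne_zero (by norm_num) (hq t).ne')
      have h2 := ((HB t).mul (Hdv t)).div ((Hv t).pow 2) (pow_ne_zero 2 (hv t).ne')
      have h3 := (Hdz t).const_mul C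
      have h := (h1.add h2).add h3
      have e := core_alg1 (q t) (v t) (A t) (B t) C kap sig2 (dq t) (dv t) (dA t) (dB t) dC dkap
        dsig2 (mu t) (dmu t) (hq t) (hv t) (hmu t) (hdmu t) (r1 t) (r2 t) (dr1 t) (dr2 t)
      rw [← e]
      refine h.congr_deriv ?_
      have h4 := (hq t).ne'
      have h5 := (hv t).ne'
      simp only [Pi.mul_apply, Pi.pow_apply]
      field_simp
      ring
    obtain ⟨s, _, _, h1⟩ := core_mv Hw hab
    simp only [qa, qb, va, vb, za, zb, mul_zero, zero_div, add_zero, sub_zero] at h1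
    have h2 : b - a ≠ 0 := by linarith
    rcases mul_eq_zero.1 h1.symm with h3 | h3
    · linarith
    · exact absurd h3 h2
  set c : ℝ := θ b / τ b with hc
  have hcT : c * τ b = θ b := by
    rw [hc]
    field_simp
  -- explicit solutions
  have hAt : ∀ t, A t = A a - 2 * kap * τ t := by
    intro t
    have H : ∀ t, HasDerivAt (fun t => A t + 2 * kap * τ t) 0 t := fun t => by
      refine ((HA t).add ((Hτ t).const_mul (2 * kap))).congr_deriv ?_
      ring
    have := core_const H t a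
    simp only [hτa] at this
    linarith
  have hdAt : ∀ t, dA t = dA a - 2 * dkap * τ t - 2 * kap * θ t := by
    intro t
    have H : ∀ t, HasDerivAt (fun t => dA t + 2 * dkap * τ t + 2 * kap * θ t) 0 t := fun t => by
      refine (((HdA t).add ((Hτ t).const_mul (2 * dkap))).add
        ((Hθ t).const_mul (2 * kap))).congr_deriv ?_
      ring
    have := core_const H t a
    simp only [hτa, hθa] at this
    linarith
  have hqt : ∀ t, q t = q a + A a * τ t - kap * τ t ^ 2 := by
    intro t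
    have H : ∀ t, HasDerivAt (fun t => q t - A a * τ t + kap * (τ t) ^ 2) 0 t := fun t => by
      refine (((Hq t).sub ((Hτ t).const_mul (A a))).add
        (((Hτ t).pow 2).const_mul kap)).congr_deriv ?_
      rw [hAt t]
      push_cast
      ring
    have := core_const H t a
    simp only [hτa] at this
    linarith
  have hdqt : ∀ t, dq t = dA a * τ t - dkap * τ t ^ 2 + A a * θ t - 2 * kap * (τ t * θ t) := by
    intro t
    have H : ∀ t, HasDerivAt (fun t => dq t - dA a * τ t + dkap * (τ t) ^ 2 - A a * θ t +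
        2 * kap * (τ t * θ t)) 0 t := fun t => by
      refine (((((Hdq t).sub ((Hτ t).const_mul (dA a))).add
        (((Hτ t).pow 2).const_mul dkap)).sub ((Hθ t).const_mul (A a))).add
        (((Hτ t).mul (Hθ t)).const_mul (2 * kap))).congr_deriv ?_
      rw [hAt t, hdAt t]
      push_cast
      ring
    have := core_const H t a
    simp only [hτa, hθa, qa] at this
    linarith
  -- the relation (X)
  have hdAa : dA a * τ b = dkap * τ b ^ 2 + 2 * kap * (τ b * θ b) - A a * θ b := by
    have := hdqt b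
    rw [qb] at this
    linarith
  have hX : (q a + A a * τ b / 2) * (τ b * dkap + 2 * kap * θ b) = 2 * sig2 * θ b := by
    have h1 := dr1 a
    rw [qa, hsig0] at h1
    have h2 := r1 a
    linear_combination (-(A a) / 2) * hdAa + (τ b / 2) * h1 + (θ b / 2) * h2
  have hR : 0 < q a + A a * τ b / 2 := by
    by_contra hneg
    push Not at hneg
    have cτ : Continuous τ := continuous_iff_continuousAt.2 fun t => (Hτ t).continuousAt
    have hc1 : ContinuousOn (fun t => q a + A a * τ t / 2) (Set.Icc a b) :=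
      (continuous_const.add ((cτ.const_mul (A a)).div_const 2)).continuousOn
    have h1 := intermediate_value_Icc' hab.le hc1
    have h2 : (0 : ℝ) ∈ Set.Icc (q a + A a * τ b / 2) (q a + A a * τ a / 2) := by
      refine ⟨hneg, ?_⟩
      rw [hτa, mul_zero, zero_div, add_zero]
      exact (hq a).le
    obtain ⟨s, _, hs⟩ := h1 h2
    simp only at hs
    have h3 : (q a + A a * τ s / 2) ^ 2 = q a * q s + sig2 * τ s ^ 2 := by
      have h4 := r1 a
      rw [hqt s]
      linear_combination (τ s ^ 2 / 4) * h4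
    rw [hs] at h3
    have h5 : 0 < q a * q s := mul_pos (hq a) (hq s)
    have h6 : 0 ≤ sig2 * τ s ^ 2 := by positivity
    nlinarith
  -- the reduced variations
  set β : ℝ → ℝ := fun t => dv t - B t * θ t + c * τ t * B t with hβ
  set g : ℝ → ℝ := fun t => dB t - kap * v t * θ t + c * (B t + τ t * kap * v t) with hg
  set rho : ℝ → ℝ := fun t => β t / v t with hrho
  set m : ℝ → ℝ := fun t => v t * g t - B t * β t with hm
  set dl : ℝ := dkap + 2 * c * kap with hdl
  have Hβ : ∀ t, HasDerivAt β (mu t * g t) t := fun t => by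
    refine (((Hdv t).sub ((HB t).mul (Hθ t))).add
      (((Hτ t).const_mul c).mul (HB t))).congr_deriv ?_
    simp only [hg]
    ring
  have Hg : ∀ t, HasDerivAt g (mu t * (v t * dl + kap * β t)) t := fun t => by
    refine (((HdB t).sub (((Hv t).const_mul kap).mul (Hθ t))).add
      (((HB t).add (((Hτ t).mul_const kap).mul (Hv t))).const_mul c)).congr_deriv ?_
    simp only [hβ, hdl]
    ring
  have Hm : ∀ t, HasDerivAt m (mu t * dl * v t ^ 2) t := fun t => by
    refine (((Hv t).mul (Hg t)).sub ((HB t).mul (Hβ t))).congr_deriv ?_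
    ring
  have Hrho : ∀ t, HasDerivAt rho (mu t * m t / v t ^ 2) t := fun t => by
    refine ((Hβ t).div (Hv t) (hv t).ne').congr_deriv ?_
    simp only [hm]
    ring
  have hrhov : ∀ t, v t * rho t = β t := fun t => by
    simp only [hrho]
    have := (hv t).ne'
    field_simp
  have ra : rho a = 0 := by
    simp only [hrho, hβ, va, hθa, hτa]
    simp
  have rb : rho b = 0 := by
    simp only [hrho, hβ, vb, hcT]
    ring
  set zt : ℝ → ℝ := fun t => dz t - C * (θ t - c * τ t) / v t ^ 2 with hzt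
  have Hzt : ∀ t, HasDerivAt zt (mu t * (dC + c * C - 2 * C * rho t) / v t ^ 2) t := fun t => by
    refine ((Hdz t).sub ((((Hθ t).sub ((Hτ t).const_mul c)).const_mul C).div ((Hv t).pow 2)
      (pow_ne_zero 2 (hv t).ne'))).congr_deriv ?_
    have h5 := (hv t).ne'
    simp only [hrho, hβ, Pi.pow_apply, Pi.sub_apply]
    field_simp
    ring
  have zta : zt a = 0 := by
    simp only [hzt, za, hθa, hτa]
    ring
  have ztb : zt b = 0 := by
    simp only [hzt, zb, hcT]
    ring
  set Q : ℝ → ℝ := fun t => 2 * (B t / v t * rho t) + 2 * (C * zt t) with hQ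
  have HQ : ∀ t, HasDerivAt Q
      (mu t * (dl - 4 * sig2 * rho t / v t ^ 2 + 2 * sig2 * c / v t ^ 2)) t := fun t => by
    have e := core_alg2 (v t) (B t) C kap sig2 (dv t) (dB t) dC dkap c (τ t) (θ t) (rho t) (mu t)
      (hv t) (r2 t) (by have := dr2 t; rw [hsig0, zero_add] at this; exact this)
      (by rw [hrhov t])
    rw [hdl, ← e]
    refine (((((HB t).div (Hv t) (hv t).ne').mul (Hrho t)).const_mul 2).add
      (((Hzt t).const_mul C).const_mul 2)).congr_deriv ?_
    simp only [hm, hg, Pi.div_apply]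
    rw [hrhov t]
  have Qa : Q a = 0 := by
    simp only [hQ, ra, zta]
    ring
  have Qb : Q b = 0 := by
    simp only [hQ, rb, ztb]
    ring
  have hD : τ b * dkap + 2 * kap * θ b = τ b * dl := by
    rw [hdl, ← hcT]
    ring
  rw [hD] at hX
  have hdl0 : dl = 0 := core_dl hab hmup hv hsig hT hR Hm Hrho HQ ra rb Qa Qb hX hc
  -- the case of equality
  have hm0 : ∀ t, m t = 0 := by
    have Hm' : ∀ t, HasDerivAt m 0 t := fun t => (Hm t).congr_deriv (by rw [hdl0]; ring)
    obtain ⟨s, _, _, hs⟩ := core_mv Hrho hab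
    rw [ra, rb, sub_self] at hs
    have h1 : m s = 0 := by
      by_contra hne
      have h2 : mu s * m s / v s ^ 2 * (b - a) ≠ 0 :=
        mul_ne_zero (div_ne_zero (mul_ne_zero (hmup s).ne' hne) (pow_ne_zero 2 (hv s).ne'))
          (by linarith)
      exact h2 hs.symm
    intro t
    rw [core_const Hm' t s, h1]
  have hr0 : ∀ t, rho t = 0 := by
    have Hr' : ∀ t, HasDerivAt rho 0 t := fun t => (Hrho t).congr_deriv (by rw [hm0]; ring)
    intro t
    rw [core_const Hr' t a, ra]
  have hgc : dC + c * C = 0 := by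
    obtain ⟨s, _, _, hs⟩ := core_mv Hzt hab
    rw [zta, ztb, sub_self, hr0 s, mul_zero, sub_zero] at hs
    by_contra hne
    have h2 : mu s * (dC + c * C) / v s ^ 2 * (b - a) ≠ 0 :=
      mul_ne_zero (div_ne_zero (mul_ne_zero (hmup s).ne' hne) (pow_ne_zero 2 (hv s).ne'))
        (by linarith)
    exact h2 hs.symm
  have hgB : dB a + c * B a = 0 := by
    have h1 := hm0 a
    simp only [hm, hg, hβ, va, hθa, hτa] at h1
    have h2 : v a * (dB a + c * B a) = 0 := by linarith
    rcases mul_eq_zero.1 h2 with h3 | h3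
    · exact absurd h3 (hv a).ne'
    · exact h3
  have hgA : dA a + c * A a = 0 := by
    have h1 : τ b * (dA a + c * A a) = 0 := by
      have h2 : τ b * (dkap + 2 * c * kap) = 0 := by rw [← hdl, hdl0, mul_zero]
      linear_combination hdAa + τ b * h2 + (A a - 2 * kap * τ b) * hcT
    rcases mul_eq_zero.1 h1 with h3 | h3
    · exact absurd h3 hT.ne'
    · exact h3
  have hfin : sig2 = 0 ∨ c = 0 := by
    rw [hdl0, mul_zero, mul_zero] at hX
    rcases mul_eq_zero.1 hX.symm with h1 | h1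
    · left
      linarith
    · right
      rw [hc, h1, zero_div]
  exact core_end (hq a) (hv a) (r1 a) (r2 a) hgA hgB hgc hfin

end Pool.Agent.NC76
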