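import Mathlib
import Pool.Agent.NC76.Defs
import Pool.Agent.NC76.Met

/-!
# Christoffel symbols of the metric `gm m`

For a diagonal metric `diag(h_i)`:
`Γ_x(u, v)^k = (1/(2 h_k)) (dh_k(u) v_k + dh_k(v) u_k - ∑_i ∂_k h_i u_i v_i)`.
With `s = x 0`, `y = x 1` the result is `GG` below.
-/

set_option autoImplicit false

namespace Pool.Agent.NC76

open scoped ContDiff

/-- the explicit form of `Γ_x(u, v)` -/
noncomputable def GG (m : ℕ) (x u v : Fin (m + 3) → ℝ) : Fin (m + 3) → ℝ :=
  Fin.cons (α := fun _ => ℝ)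
    ((Real.exp (2 * (x 0 - x 1)) * (u 0 * v 0 - u 0 * v 1 - u 1 * v 0)
        + Real.exp (-(2 * x 0)) * (u 1 * v 1)
        + Real.exp (2 * (x 1 - x 0)) * (u 2 * v 2)) / (1 + Real.exp (2 * (x 0 - x 1))))
    (Fin.cons (α := fun _ => ℝ)
      ((-Real.exp (-(2 * x 0)) * (u 0 * v 1 + u 1 * v 0)
          - Real.exp (-(2 * x 1)) * (u 1 * v 1)
          + Real.exp (2 * (x 0 - x 1)) * (u 0 * v 0)
          - Real.exp (2 * (x 1 - x 0)) * (u 2 * v 2))
        / (Real.exp (-(2 * x 0)) + Real.exp (-(2 * x 1))))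
      (Fin.cons (α := fun _ => ℝ)
        (Real.exp (2 * (x 1 - x 0)) * ((u 1 - u 0) * v 2 + (v 1 - v 0) * u 2)
          / (1 + Real.exp (2 * (x 1 - x 0))))
        (fun _ => 0)))

/-! ### derivatives of the coefficients -/

theorem hasFDerivAt_coord {n : ℕ} (i : Fin n) (x : Fin n → ℝ) :
    HasFDerivAt (fun y : Fin n → ℝ => y i) (ContinuousLinearMap.proj (R := ℝ) i) x :=
  (ContinuousLinearMap.proj (R := ℝ) (φ := fun _ : Fin n => ℝ) i).hasFDerivAt

theorem fderiv_hh_zero (m : ℕ) (x w : Fin (m + 3) → ℝ) :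
    fderiv ℝ (fun y => hh m y 0) x w = Real.exp (2 * (x 0 - x 1)) * (2 * (w 0 - w 1)) := by
  have h : HasFDerivAt (fun y : Fin (m + 3) → ℝ => 1 + Real.exp (2 * (y 0 - y 1))) _ x :=
    ((((hasFDerivAt_coord 0 x).sub (hasFDerivAt_coord 1 x)).const_mul 2).exp).const_add 1
  simp only [hh_zero]
  rw [h.fderiv]
  simp

theorem fderiv_hh_one (m : ℕ) (x w : Fin (m + 3) → ℝ) :
    fderiv ℝ (fun y => hh m y 1) x w
      = Real.exp (-(2 * x 0)) * (-(2 * w 0)) + Real.exp (-(2 * x 1)) * (-(2 * w 1)) := by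
  have h : HasFDerivAt
      (fun y : Fin (m + 3) → ℝ => Real.exp (-(2 * y 0)) + Real.exp (-(2 * y 1))) _ x :=
    ((((hasFDerivAt_coord 0 x).const_mul 2).neg).exp).add
      ((((hasFDerivAt_coord 1 x).const_mul 2).neg).exp)
  simp only [hh_one]
  rw [h.fderiv]
  simp

theorem fderiv_hh_two (m : ℕ) (x w : Fin (m + 3) → ℝ) :
    fderiv ℝ (fun y => hh m y 2) x w = Real.exp (2 * (x 1 - x 0)) * (2 * (w 1 - w 0)) := by
  have h : HasFDerivAt (fun y : Fin (m + 3) → ℝ => 1 + Real.exp (2 * (y 1 - y 0))) _ x :=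
    ((((hasFDerivAt_coord 1 x).sub (hasFDerivAt_coord 0 x)).const_mul 2).exp).const_add 1
  simp only [hh_two]
  rw [h.fderiv]
  simp

theorem fderiv_hh_rest (m : ℕ) (x w : Fin (m + 3) → ℝ) (i : Fin m) :
    fderiv ℝ (fun y => hh m y i.succ.succ.succ) x w = 0 := by
  simp only [hh_rest]
  simp

/-- a linear functional on `ℝⁿ` as a sum -/
theorem sum_single {n : ℕ} (f : (Fin n → ℝ) →L[ℝ] ℝ) (u : Fin n → ℝ) :
    ∑ i, f (Pi.single i 1) * u i = f u := by
  have h : u = ∑ i, u i • (Pi.single i (1 : ℝ) : Fin n → ℝ) := by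
    funext j
    simp [Finset.sum_apply, Pi.single_apply]
  conv_rhs => rw [h]
  rw [map_sum]
  refine Finset.sum_congr rfl fun i _ => ?_
  rw [map_smul, smul_eq_mul, mul_comm]

/-- the Christoffel operator of a diagonal metric -/
theorem gam_diag (m : ℕ) (x u v : Fin (m + 3) → ℝ) (k : Fin (m + 3)) :
    (gm m).Gam x u v k = (1 / 2) * (hh m x k)⁻¹ *
      (fderiv ℝ (fun y => hh m y k) x u * v k + fderiv ℝ (fun y => hh m y k) x v * u k
        - ∑ i, fderiv ℝ (fun y => hh m y i) x (Pi.single k 1) * (u i * v i)) := by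
  have hinv : ((gm m).coeff x)⁻¹ = Matrix.diagonal (fun i => (hh m x i)⁻¹) := by
    rw [gm_coeff]
    apply Matrix.inv_eq_right_inv
    rw [Matrix.diagonal_mul_diagonal]
    ext i j
    by_cases hij : i = j
    · subst hij
      simp [(hh_pos m x i).ne']
    · simp [Matrix.diagonal_apply_ne _ hij, Matrix.one_apply_ne hij]
  have hd : ∀ a i j, (gm m).dcoeff a i j x
      = if i = j then fderiv ℝ (fun y => hh m y i) x (Pi.single a 1) else 0 := by
    intro a i j
    unfold RMetric.dcoeff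
    simp only [gm_coeff]
    split_ifs with hij
    · subst hij
      simp
    · simp [Matrix.diagonal_apply_ne _ hij]
  have hc : ∀ i j, (gm m).christoffel k i j x = (1 / 2) * (hh m x k)⁻¹ *
      ((gm m).dcoeff i j k x + (gm m).dcoeff j i k x - (gm m).dcoeff k i j x) := by
    intro i j
    unfold RMetric.christoffel
    rw [hinv, Finset.sum_eq_single k]
    · simp; ring
    · intro l _ hl
      rw [Matrix.diagonal_apply_ne _ (Ne.symm hl)]
      ring
    · intro hk
      exact absurd (Finset.mem_univ k) hk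
  unfold RMetric.Gam
  simp only [hc, hd]
  rw [← sum_single (fderiv ℝ (fun y => hh m y k) x) u,
    ← sum_single (fderiv ℝ (fun y => hh m y k) x) v]
  have e1 : ∀ i j, (1 / 2) * (hh m x k)⁻¹ *
      ((if j = k then fderiv ℝ (fun y => hh m y j) x (Pi.single i 1) else 0)
        + (if i = k then fderiv ℝ (fun y => hh m y i) x (Pi.single j 1) else 0)
        - (if i = j then fderiv ℝ (fun y => hh m y i) x (Pi.single k 1) else 0)) * u i * v j
      = (1 / 2) * (hh m x k)⁻¹ *
        ((if j = k then fderiv ℝ (fun y => hh m y k) x (Pi.single i 1) * u i * v k else 0)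
        + (if i = k then fderiv ℝ (fun y => hh m y k) x (Pi.single j 1) * v j * u k else 0)
        - (if j = i then fderiv ℝ (fun y => hh m y i) x (Pi.single k 1) * (u i * v i) else 0)) := by
    intro i j
    by_cases h3 : j = i
    · subst h3
      by_cases h1 : j = k
      · subst h1
        simp only [if_true]
        ring
      · simp only [if_neg h1, if_true]
        ring
    · have h3' : ¬ i = j := fun h => h3 h.symm
      simp only [if_neg h3, if_neg h3']
      by_cases h1 : j = k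
      · subst h1
        simp only [if_neg h3', if_true]
        ring
      · simp only [if_neg h1]
        by_cases h2 : i = k
        · subst h2
          simp only [if_true]
          ring
        · simp only [if_neg h2]
          ring
  simp only [e1]
  simp only [← Finset.mul_sum, Finset.sum_add_distrib, Finset.sum_sub_distrib]
  congr 1
  congr 1
  · congr 1
    · rw [Finset.sum_mul]
      refine Finset.sum_congr rfl fun i _ => ?_
      simp
    · rw [Finset.sum_comm]
      rw [Finset.sum_mul]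
      refine Finset.sum_congr rfl fun i _ => ?_
      simp
  · refine Finset.sum_congr rfl fun i _ => ?_
    simp

theorem val2 (m : ℕ) : ((2 : Fin (m + 3)) : ℕ) = 2 := by
  have e2 : (2 : Fin (m + 3)) = (Fin.succ (Fin.succ (0 : Fin (m + 1)))) := rfl
  rw [e2]; rfl

theorem ne10 (m : ℕ) : (1 : Fin (m + 3)) ≠ 0 := by simp

theorem ne20 (m : ℕ) : (2 : Fin (m + 3)) ≠ 0 := by
  rw [Ne, Fin.ext_iff, val2]; simp

theorem ne21 (m : ℕ) : (2 : Fin (m + 3)) ≠ 1 := by
  rw [Ne, Fin.ext_iff, val2]; simp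

theorem ner0 (m : ℕ) (i : Fin m) : (i.succ.succ.succ : Fin (m + 3)) ≠ 0 := by
  simp [Fin.ext_iff]

theorem ner1 (m : ℕ) (i : Fin m) : (i.succ.succ.succ : Fin (m + 3)) ≠ 1 := by
  simp [Fin.ext_iff]

theorem ner2 (m : ℕ) (i : Fin m) : (i.succ.succ.succ : Fin (m + 3)) ≠ 2 := by
  rw [Ne, Fin.ext_iff, val2]; simp

theorem gam_eq (m : ℕ) (x u v : Fin (m + 3) → ℝ) : (gm m).Gam x u v = GG m x u v := by
  have hz : ∀ f : Fin m → ℝ, ∑ i : Fin m, (0 : ℝ) * f i = 0 := by
    intro f
    simp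
  have p0 : 0 < 1 + Real.exp (2 * (x 0 - x 1)) := by positivity
  have p1 : 0 < Real.exp (-(2 * x 0)) + Real.exp (-(2 * x 1)) := by positivity
  have p2 : 0 < 1 + Real.exp (2 * (x 1 - x 0)) := by positivity
  funext k
  revert k
  apply fin_cases3
  · rw [gam_diag, sum3]
    simp only [fderiv_hh_zero, fderiv_hh_one, fderiv_hh_two, fderiv_hh_rest]
    simp only [hh_zero,
      Pi.single_eq_same, Pi.single_eq_of_ne (ne10 m), Pi.single_eq_of_ne (ne20 m), hz]
    show _ = (Real.exp (2 * (x 0 - x 1)) * (u 0 * v 0 - u 0 * v 1 - u 1 * v 0)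
        + Real.exp (-(2 * x 0)) * (u 1 * v 1)
        + Real.exp (2 * (x 1 - x 0)) * (u 2 * v 2)) / (1 + Real.exp (2 * (x 0 - x 1)))
    field_simp
    ring
  · rw [gam_diag, sum3]
    simp only [fderiv_hh_zero, fderiv_hh_one, fderiv_hh_two, fderiv_hh_rest]
    simp only [hh_one,
      Pi.single_eq_same, Pi.single_eq_of_ne (ne10 m).symm, Pi.single_eq_of_ne (ne21 m), hz]
    show _ = (-Real.exp (-(2 * x 0)) * (u 0 * v 1 + u 1 * v 0)
          - Real.exp (-(2 * x 1)) * (u 1 * v 1)
          + Real.exp (2 * (x 0 - x 1)) * (u 0 * v 0)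
          - Real.exp (2 * (x 1 - x 0)) * (u 2 * v 2))
        / (Real.exp (-(2 * x 0)) + Real.exp (-(2 * x 1)))
    field_simp
    ring
  · rw [gam_diag, sum3]
    simp only [fderiv_hh_zero, fderiv_hh_one, fderiv_hh_two, fderiv_hh_rest]
    simp only [hh_two,
      Pi.single_eq_of_ne (ne20 m).symm, Pi.single_eq_of_ne (ne21 m).symm, hz]
    show _ = Real.exp (2 * (x 1 - x 0)) * ((u 1 - u 0) * v 2 + (v 1 - v 0) * u 2)
          / (1 + Real.exp (2 * (x 1 - x 0)))
    field_simp
    ring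
  · intro i
    rw [gam_diag, sum3]
    simp only [fderiv_hh_zero, fderiv_hh_one, fderiv_hh_two, fderiv_hh_rest]
    simp only [hh_rest,
      Pi.single_eq_of_ne (ner0 m i).symm, Pi.single_eq_of_ne (ner1 m i).symm, hz]
    show _ = (0 : ℝ)
    ring

end Pool.Agent.NC76
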