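import Mathlib
import Pool.Agent.NC76.Defs
import Pool.Agent.NC76.Met
import Pool.Agent.NC76.Gam

/-!
# The Jacobi equation is the linearised geodesic equation
-/

set_option autoImplicit false

namespace Pool.Agent.NC76

open scoped ContDiff

/-- the geodesic vector field on the tangent bundle -/
noncomputable def XX (m : ℕ) (p : (Fin (m + 3) → ℝ) × (Fin (m + 3) → ℝ)) :
    (Fin (m + 3) → ℝ) × (Fin (m + 3) → ℝ) :=
  (p.2, -GG m p.1 p.2 p.2)

/-- `GG` as a function of one variable in the product -/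
noncomputable def Gh (m : ℕ)
    (p : (Fin (m + 3) → ℝ) × (Fin (m + 3) → ℝ) × (Fin (m + 3) → ℝ)) : Fin (m + 3) → ℝ :=
  GG m p.1 p.2.1 p.2.2

theorem GG_smooth (m : ℕ) : ContDiff ℝ ∞
    (fun p : (Fin (m + 3) → ℝ) × (Fin (m + 3) → ℝ) × (Fin (m + 3) → ℝ) =>
      GG m p.1 p.2.1 p.2.2) := by
  rw [contDiff_pi]
  apply fin_cases3
  · show ContDiff ℝ ∞ (fun p : (Fin (m + 3) → ℝ) × (Fin (m + 3) → ℝ) × (Fin (m + 3) → ℝ) =>
      (Real.exp (2 * (p.1 0 - p.1 1))
          * (p.2.1 0 * p.2.2 0 - p.2.1 0 * p.2.2 1 - p.2.1 1 * p.2.2 0)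
        + Real.exp (-(2 * p.1 0)) * (p.2.1 1 * p.2.2 1)
        + Real.exp (2 * (p.1 1 - p.1 0)) * (p.2.1 2 * p.2.2 2))
          / (1 + Real.exp (2 * (p.1 0 - p.1 1))))
    exact ContDiff.div (by fun_prop) (by fun_prop) (fun p => by positivity)
  · show ContDiff ℝ ∞ (fun p : (Fin (m + 3) → ℝ) × (Fin (m + 3) → ℝ) × (Fin (m + 3) → ℝ) =>
      (-Real.exp (-(2 * p.1 0)) * (p.2.1 0 * p.2.2 1 + p.2.1 1 * p.2.2 0)
          - Real.exp (-(2 * p.1 1)) * (p.2.1 1 * p.2.2 1)
          + Real.exp (2 * (p.1 0 - p.1 1)) * (p.2.1 0 * p.2.2 0)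
          - Real.exp (2 * (p.1 1 - p.1 0)) * (p.2.1 2 * p.2.2 2))
        / (Real.exp (-(2 * p.1 0)) + Real.exp (-(2 * p.1 1))))
    exact ContDiff.div (by fun_prop) (by fun_prop) (fun p => by positivity)
  · show ContDiff ℝ ∞ (fun p : (Fin (m + 3) → ℝ) × (Fin (m + 3) → ℝ) × (Fin (m + 3) → ℝ) =>
      Real.exp (2 * (p.1 1 - p.1 0))
          * ((p.2.1 1 - p.2.1 0) * p.2.2 2 + (p.2.2 1 - p.2.2 0) * p.2.1 2)
          / (1 + Real.exp (2 * (p.1 1 - p.1 0))))
    exact ContDiff.div (by fun_prop) (by fun_prop) (fun p => by positivity)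
  · intro i
    show ContDiff ℝ ∞ (fun _ : (Fin (m + 3) → ℝ) × (Fin (m + 3) → ℝ) × (Fin (m + 3) → ℝ) =>
      (0 : ℝ))
    exact contDiff_const

theorem Gh_smooth (m : ℕ) : ContDiff ℝ ∞ (Gh m) := GG_smooth m

theorem XX_smooth (m : ℕ) : ContDiff ℝ ∞ (XX m) := by
  have h : ContDiff ℝ ∞ (fun p : (Fin (m + 3) → ℝ) × (Fin (m + 3) → ℝ) =>
      Gh m (p.1, p.2, p.2)) :=
    (Gh_smooth m).comp (by fun_prop)
  exact ContDiff.prodMk contDiff_snd h.neg

theorem GG_symm (m : ℕ) (x u v : Fin (m + 3) → ℝ) : GG m x u v = GG m x v u := by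
  funext k
  revert k
  apply fin_cases3
  · simp only [GG, Fin.cons_zero]
    ring
  · show (-Real.exp (-(2 * x 0)) * (u 0 * v 1 + u 1 * v 0)
          - Real.exp (-(2 * x 1)) * (u 1 * v 1)
          + Real.exp (2 * (x 0 - x 1)) * (u 0 * v 0)
          - Real.exp (2 * (x 1 - x 0)) * (u 2 * v 2))
        / (Real.exp (-(2 * x 0)) + Real.exp (-(2 * x 1)))
        = (-Real.exp (-(2 * x 0)) * (v 0 * u 1 + v 1 * u 0)
          - Real.exp (-(2 * x 1)) * (v 1 * u 1)
          + Real.exp (2 * (x 0 - x 1)) * (v 0 * u 0)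
          - Real.exp (2 * (x 1 - x 0)) * (v 2 * u 2))
        / (Real.exp (-(2 * x 0)) + Real.exp (-(2 * x 1)))
    ring
  · show Real.exp (2 * (x 1 - x 0)) * ((u 1 - u 0) * v 2 + (v 1 - v 0) * u 2)
          / (1 + Real.exp (2 * (x 1 - x 0)))
        = Real.exp (2 * (x 1 - x 0)) * ((v 1 - v 0) * u 2 + (u 1 - u 0) * v 2)
          / (1 + Real.exp (2 * (x 1 - x 0)))
    ring
  · intro i
    rfl

theorem GG_add_right (m : ℕ) (x u v w : Fin (m + 3) → ℝ) :
    GG m x u (v + w) = GG m x u v + GG m x u w := by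
  funext k
  rw [Pi.add_apply]
  revert k
  apply fin_cases3
  · show (Real.exp (2 * (x 0 - x 1)) * (u 0 * (v 0 + w 0) - u 0 * (v 1 + w 1) - u 1 * (v 0 + w 0))
        + Real.exp (-(2 * x 0)) * (u 1 * (v 1 + w 1))
        + Real.exp (2 * (x 1 - x 0)) * (u 2 * (v 2 + w 2))) / (1 + Real.exp (2 * (x 0 - x 1)))
        = (Real.exp (2 * (x 0 - x 1)) * (u 0 * v 0 - u 0 * v 1 - u 1 * v 0)
        + Real.exp (-(2 * x 0)) * (u 1 * v 1)
        + Real.exp (2 * (x 1 - x 0)) * (u 2 * v 2)) / (1 + Real.exp (2 * (x 0 - x 1)))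
        + (Real.exp (2 * (x 0 - x 1)) * (u 0 * w 0 - u 0 * w 1 - u 1 * w 0)
        + Real.exp (-(2 * x 0)) * (u 1 * w 1)
        + Real.exp (2 * (x 1 - x 0)) * (u 2 * w 2)) / (1 + Real.exp (2 * (x 0 - x 1)))
    ring
  · show (-Real.exp (-(2 * x 0)) * (u 0 * (v 1 + w 1) + u 1 * (v 0 + w 0))
          - Real.exp (-(2 * x 1)) * (u 1 * (v 1 + w 1))
          + Real.exp (2 * (x 0 - x 1)) * (u 0 * (v 0 + w 0))
          - Real.exp (2 * (x 1 - x 0)) * (u 2 * (v 2 + w 2)))
        / (Real.exp (-(2 * x 0)) + Real.exp (-(2 * x 1)))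
        = (-Real.exp (-(2 * x 0)) * (u 0 * v 1 + u 1 * v 0)
          - Real.exp (-(2 * x 1)) * (u 1 * v 1)
          + Real.exp (2 * (x 0 - x 1)) * (u 0 * v 0)
          - Real.exp (2 * (x 1 - x 0)) * (u 2 * v 2))
        / (Real.exp (-(2 * x 0)) + Real.exp (-(2 * x 1)))
        + (-Real.exp (-(2 * x 0)) * (u 0 * w 1 + u 1 * w 0)
          - Real.exp (-(2 * x 1)) * (u 1 * w 1)
          + Real.exp (2 * (x 0 - x 1)) * (u 0 * w 0)
          - Real.exp (2 * (x 1 - x 0)) * (u 2 * w 2))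
        / (Real.exp (-(2 * x 0)) + Real.exp (-(2 * x 1)))
    ring
  · show Real.exp (2 * (x 1 - x 0))
          * ((u 1 - u 0) * (v 2 + w 2) + ((v 1 + w 1) - (v 0 + w 0)) * u 2)
          / (1 + Real.exp (2 * (x 1 - x 0)))
        = Real.exp (2 * (x 1 - x 0)) * ((u 1 - u 0) * v 2 + (v 1 - v 0) * u 2)
          / (1 + Real.exp (2 * (x 1 - x 0)))
        + Real.exp (2 * (x 1 - x 0)) * ((u 1 - u 0) * w 2 + (w 1 - w 0) * u 2)
          / (1 + Real.exp (2 * (x 1 - x 0)))
    ring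
  · intro i
    show (0 : ℝ) = 0 + 0
    ring

theorem GG_smul_right (m : ℕ) (x u v : Fin (m + 3) → ℝ) (r : ℝ) :
    GG m x u (r • v) = r • GG m x u v := by
  funext k
  rw [Pi.smul_apply, smul_eq_mul]
  revert k
  apply fin_cases3
  · show (Real.exp (2 * (x 0 - x 1)) * (u 0 * (r * v 0) - u 0 * (r * v 1) - u 1 * (r * v 0))
        + Real.exp (-(2 * x 0)) * (u 1 * (r * v 1))
        + Real.exp (2 * (x 1 - x 0)) * (u 2 * (r * v 2))) / (1 + Real.exp (2 * (x 0 - x 1)))
        = r * ((Real.exp (2 * (x 0 - x 1)) * (u 0 * v 0 - u 0 * v 1 - u 1 * v 0)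
        + Real.exp (-(2 * x 0)) * (u 1 * v 1)
        + Real.exp (2 * (x 1 - x 0)) * (u 2 * v 2)) / (1 + Real.exp (2 * (x 0 - x 1))))
    ring
  · show (-Real.exp (-(2 * x 0)) * (u 0 * (r * v 1) + u 1 * (r * v 0))
          - Real.exp (-(2 * x 1)) * (u 1 * (r * v 1))
          + Real.exp (2 * (x 0 - x 1)) * (u 0 * (r * v 0))
          - Real.exp (2 * (x 1 - x 0)) * (u 2 * (r * v 2)))
        / (Real.exp (-(2 * x 0)) + Real.exp (-(2 * x 1)))
        = r * ((-Real.exp (-(2 * x 0)) * (u 0 * v 1 + u 1 * v 0)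
          - Real.exp (-(2 * x 1)) * (u 1 * v 1)
          + Real.exp (2 * (x 0 - x 1)) * (u 0 * v 0)
          - Real.exp (2 * (x 1 - x 0)) * (u 2 * v 2))
        / (Real.exp (-(2 * x 0)) + Real.exp (-(2 * x 1))))
    ring
  · show Real.exp (2 * (x 1 - x 0))
          * ((u 1 - u 0) * (r * v 2) + ((r * v 1) - (r * v 0)) * u 2)
          / (1 + Real.exp (2 * (x 1 - x 0)))
        = r * (Real.exp (2 * (x 1 - x 0)) * ((u 1 - u 0) * v 2 + (v 1 - v 0) * u 2)
          / (1 + Real.exp (2 * (x 1 - x 0))))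
    ring
  · intro i
    show (0 : ℝ) = r * 0
    ring

theorem GG_add_left (m : ℕ) (x u v w : Fin (m + 3) → ℝ) :
    GG m x (u + v) w = GG m x u w + GG m x v w := by
  rw [GG_symm m x (u + v) w, GG_add_right, GG_symm m x w u, GG_symm m x w v]

theorem GG_smul_left (m : ℕ) (x u v : Fin (m + 3) → ℝ) (r : ℝ) :
    GG m x (r • u) v = r • GG m x u v := by
  rw [GG_symm m x (r • u) v, GG_smul_right, GG_symm m x v u]

theorem GG_neg_left (m : ℕ) (x u v : Fin (m + 3) → ℝ) :
    GG m x (-u) v = -GG m x u v := by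
  have h := GG_smul_left m x u v (-1)
  simpa using h

/-- the derivative of `Gh` -/
theorem fderiv_Gh (m : ℕ) (x u v ξ μ η : Fin (m + 3) → ℝ) :
    fderiv ℝ (Gh m) (x, u, v) (ξ, μ, η)
      = fderiv ℝ (fun y => GG m y u v) x ξ + GG m x μ v + GG m x u η := by
  have hd : HasFDerivAt (Gh m) (fderiv ℝ (Gh m) (x, u, v)) (x, u, v) :=
    ((Gh_smooth m).differentiable (by simp)).differentiableAt.hasFDerivAt
  have h1 : fderiv ℝ (Gh m) (x, u, v) (ξ, 0, 0) = fderiv ℝ (fun y => GG m y u v) x ξ := by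
    have hc : HasFDerivAt (fun y : Fin (m + 3) → ℝ => (y, u, v))
        ((ContinuousLinearMap.id ℝ (Fin (m + 3) → ℝ)).prod 0) x :=
      (hasFDerivAt_id x).prodMk (hasFDerivAt_const (u, v) x)
    have h := (HasFDerivAt.comp x hd hc).fderiv
    have h' : fderiv ℝ (fun y => GG m y u v) x
        = (fderiv ℝ (Gh m) (x, u, v)).comp
          ((ContinuousLinearMap.id ℝ (Fin (m + 3) → ℝ)).prod 0) := h
    rw [h']
    rfl
  have h2 : fderiv ℝ (Gh m) (x, u, v) (0, μ, 0) = GG m x μ v := by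
    have hc : HasDerivAt (fun r : ℝ => (x, u + r • μ, v))
        ((0 : Fin (m + 3) → ℝ), μ, (0 : Fin (m + 3) → ℝ)) 0 := by
      refine (hasDerivAt_const _ _).prodMk (HasDerivAt.prodMk ?_ (hasDerivAt_const _ _))
      have := ((hasDerivAt_id (0 : ℝ)).smul_const μ).const_add u
      simpa using this
    have hd' : HasFDerivAt (Gh m) (fderiv ℝ (Gh m) (x, u, v)) (x, u + (0 : ℝ) • μ, v) := by
      simpa using hd
    have ha := hd'.comp_hasDerivAt (0 : ℝ) hc
    have hb : HasDerivAt (fun r : ℝ => GG m x u v + r • GG m x μ v) (GG m x μ v) 0 := by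
      have := ((hasDerivAt_id (0 : ℝ)).smul_const (GG m x μ v)).const_add (GG m x u v)
      simpa using this
    have he : (Gh m ∘ fun r : ℝ => (x, u + r • μ, v))
        = fun r : ℝ => GG m x u v + r • GG m x μ v := by
      funext r
      show GG m x (u + r • μ) v = _
      rw [GG_add_left, GG_smul_left]
    rw [he] at ha
    exact ha.unique hb
  have h3 : fderiv ℝ (Gh m) (x, u, v) (0, 0, η) = GG m x u η := by
    have hc : HasDerivAt (fun r : ℝ => (x, u, v + r • η))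
        ((0 : Fin (m + 3) → ℝ), (0 : Fin (m + 3) → ℝ), η) 0 := by
      refine (hasDerivAt_const _ _).prodMk (HasDerivAt.prodMk (hasDerivAt_const _ _) ?_)
      have := ((hasDerivAt_id (0 : ℝ)).smul_const η).const_add v
      simpa using this
    have hd' : HasFDerivAt (Gh m) (fderiv ℝ (Gh m) (x, u, v)) (x, u, v + (0 : ℝ) • η) := by
      simpa using hd
    have ha := hd'.comp_hasDerivAt (0 : ℝ) hc
    have hb : HasDerivAt (fun r : ℝ => GG m x u v + r • GG m x u η) (GG m x u η) 0 := by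
      have := ((hasDerivAt_id (0 : ℝ)).smul_const (GG m x u η)).const_add (GG m x u v)
      simpa using this
    have he : (Gh m ∘ fun r : ℝ => (x, u, v + r • η))
        = fun r : ℝ => GG m x u v + r • GG m x u η := by
      funext r
      show GG m x u (v + r • η) = _
      rw [GG_add_right, GG_smul_right]
    rw [he] at ha
    exact ha.unique hb
  have hs : ((ξ, μ, η) : (Fin (m + 3) → ℝ) × (Fin (m + 3) → ℝ) × (Fin (m + 3) → ℝ))
      = (ξ, 0, 0) + (0, μ, 0) + (0, 0, η) := by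
    simp
  rw [hs, map_add, map_add, h1, h2, h3]

theorem jac_lin (m : ℕ) (γ J : ℝ → Fin (m + 3) → ℝ) (hγ : (gm m).IsGeodesic γ)
    (hJ : (gm m).IsJacobi γ J) :
    (∀ t, HasDerivAt (fun t => (γ t, deriv γ t)) (XX m (γ t, deriv γ t)) t) ∧
      ∀ t, HasDerivAt (fun t => (J t, deriv J t))
        (fderiv ℝ (XX m) (γ t, deriv γ t) (J t, deriv J t)) t := by
  obtain ⟨hg1, hg2, hg3⟩ := hγ
  obtain ⟨hj1, hj2, hj3⟩ := hJ
  have hV : ∀ t, deriv (deriv γ) t = -GG m (γ t) (deriv γ t) (deriv γ t) := by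
    intro t
    have h := hg3 t
    unfold RMetric.covDeriv at h
    rw [gam_eq] at h
    exact eq_neg_of_add_eq_zero_left h
  have hcov : ∀ s, (gm m).covDeriv γ J s = deriv J s + Gh m (γ s, deriv γ s, J s) := by
    intro s
    unfold RMetric.covDeriv
    rw [gam_eq]
    rfl
  have hcovd : ∀ t, deriv ((gm m).covDeriv γ J) t = deriv (deriv J) t
      + fderiv ℝ (Gh m) (γ t, deriv γ t, J t) (deriv γ t, deriv (deriv γ) t, deriv J t) := by
    intro t
    have e : (gm m).covDeriv γ J = fun s => deriv J s + Gh m (γ s, deriv γ s, J s) :=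
      funext hcov
    rw [e]
    have hc : HasDerivAt (fun s => (γ s, deriv γ s, J s))
        (deriv γ t, deriv (deriv γ) t, deriv J t) t :=
      (hg1 t).hasDerivAt.prodMk ((hg2 t).hasDerivAt.prodMk (hj1 t).hasDerivAt)
    have hd : HasFDerivAt (Gh m) (fderiv ℝ (Gh m) (γ t, deriv γ t, J t))
        (γ t, deriv γ t, J t) :=
      ((Gh_smooth m).differentiable (by simp)).differentiableAt.hasFDerivAt
    exact ((hj2 t).hasDerivAt.add (hd.comp_hasDerivAt t hc)).deriv
  refine ⟨fun t => ?_, fun t => ?_⟩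
  · have h := (hg1 t).hasDerivAt.prodMk (hg2 t).hasDerivAt
    rw [hV t] at h
    exact h
  · have h := (hj1 t).hasDerivAt.prodMk (hj2 t).hasDerivAt
    have key : fderiv ℝ (XX m) (γ t, deriv γ t) (J t, deriv J t)
        = (deriv J t, deriv (deriv J) t) := by
      have hXX : HasFDerivAt (XX m)
          ((ContinuousLinearMap.snd ℝ (Fin (m + 3) → ℝ) (Fin (m + 3) → ℝ)).prod
            (-((fderiv ℝ (Gh m) (γ t, deriv γ t, deriv γ t)).comp
              ((ContinuousLinearMap.fst ℝ (Fin (m + 3) → ℝ) (Fin (m + 3) → ℝ)).prod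
                ((ContinuousLinearMap.snd ℝ (Fin (m + 3) → ℝ) (Fin (m + 3) → ℝ)).prod
                  (ContinuousLinearMap.snd ℝ (Fin (m + 3) → ℝ) (Fin (m + 3) → ℝ)))))))
          (γ t, deriv γ t) := by
        have hd : HasFDerivAt (Gh m) (fderiv ℝ (Gh m) (γ t, deriv γ t, deriv γ t))
            (γ t, deriv γ t, deriv γ t) :=
          ((Gh_smooth m).differentiable (by simp)).differentiableAt.hasFDerivAt
        have hc : HasFDerivAt (fun p : (Fin (m + 3) → ℝ) × (Fin (m + 3) → ℝ) => (p.1, p.2, p.2))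
            ((ContinuousLinearMap.fst ℝ (Fin (m + 3) → ℝ) (Fin (m + 3) → ℝ)).prod
                ((ContinuousLinearMap.snd ℝ (Fin (m + 3) → ℝ) (Fin (m + 3) → ℝ)).prod
                  (ContinuousLinearMap.snd ℝ (Fin (m + 3) → ℝ) (Fin (m + 3) → ℝ))))
            (γ t, deriv γ t) :=
          hasFDerivAt_fst.prodMk (hasFDerivAt_snd.prodMk hasFDerivAt_snd)
        exact hasFDerivAt_snd.prodMk (HasFDerivAt.comp (γ t, deriv γ t) hd hc).neg
      rw [hXX.fderiv]
      show (deriv J t, -(fderiv ℝ (Gh m) (γ t, deriv γ t, deriv γ t)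
        (J t, deriv J t, deriv J t))) = _
      congr 1
      have hj := hj3 t
      unfold RMetric.covDeriv at hj
      have hcd := hcovd t
      unfold RMetric.covDeriv at hcd
      rw [hcd] at hj
      unfold RMetric.curv at hj
      simp only [gam_eq] at hj
      rw [fderiv_Gh, hV t, GG_neg_left, GG_add_right] at hj
      rw [fderiv_Gh]
      have s1 : GG m (γ t) (deriv J t) (deriv γ t) = GG m (γ t) (deriv γ t) (deriv J t) :=
        GG_symm _ _ _ _
      have s2 : GG m (γ t) (J t) (GG m (γ t) (deriv γ t) (deriv γ t))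
          = GG m (γ t) (GG m (γ t) (deriv γ t) (deriv γ t)) (J t) := GG_symm _ _ _ _
      have s3 : GG m (γ t) (J t) (deriv γ t) = GG m (γ t) (deriv γ t) (J t) := GG_symm _ _ _ _
      have s4 : (fun y => GG m y (J t) (deriv γ t)) = fun y => GG m y (deriv γ t) (J t) :=
        funext fun y => GG_symm _ _ _ _
      rw [s2, s3, s4] at hj
      rw [s1]
      funext k
      have hk := congrFun hj k
      simp only [Pi.add_apply, Pi.sub_apply, Pi.neg_apply, Pi.zero_apply] at hk ⊢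
      linarith
    rw [key]
    exact h

end Pool.Agent.NC76
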