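import Mathlib
import Pool.Agent.NC76.Defs
import Pool.Agent.NC76.Met
import Pool.Agent.NC76.Gam
import Pool.Agent.NC76.Jac

/-!
# The functions `q, v, z, A, B, C, κ, σ²` on the tangent bundle and their derivatives
-/

set_option autoImplicit false

namespace Pool.Agent.NC76

open scoped ContDiff

/-- the tangent bundle of `ℝ^{m+3}` -/
abbrev PP (m : ℕ) := (Fin (m + 3) → ℝ) × (Fin (m + 3) → ℝ)

noncomputable def fq (m : ℕ) (p : PP m) : ℝ := Real.exp (2 * p.1 0)
noncomputable def fv (m : ℕ) (p : PP m) : ℝ := Real.exp (p.1 1)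
noncomputable def fz (m : ℕ) (p : PP m) : ℝ := p.1 2
noncomputable def fA (m : ℕ) (p : PP m) : ℝ := 2 * (1 + Real.exp (2 * (p.1 0 - p.1 1))) * p.2 0
noncomputable def fB (m : ℕ) (p : PP m) : ℝ :=
  Real.exp (p.1 1) * (Real.exp (-(2 * p.1 0)) + Real.exp (-(2 * p.1 1))) * p.2 1
noncomputable def fC (m : ℕ) (p : PP m) : ℝ := (1 + Real.exp (2 * (p.1 1 - p.1 0))) * p.2 2
noncomputable def fmu (m : ℕ) (p : PP m) : ℝ := fq m p * fv m p ^ 2 / (fq m p + fv m p ^ 2)
noncomputable def fk (m : ℕ) (p : PP m) : ℝ :=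
  (fB m p ^ 2 + fC m p ^ 2 - fA m p ^ 2 / 4) / (fq m p + fv m p ^ 2)
noncomputable def fs (m : ℕ) (p : PP m) : ℝ := fA m p ^ 2 / 4 + fk m p * fq m p

theorem fq_pos (m : ℕ) (p : PP m) : 0 < fq m p := Real.exp_pos _
theorem fv_pos (m : ℕ) (p : PP m) : 0 < fv m p := Real.exp_pos _
theorem fqv_pos (m : ℕ) (p : PP m) : 0 < fq m p + fv m p ^ 2 := by
  have := fq_pos m p
  positivity

theorem fq_smooth (m : ℕ) : ContDiff ℝ ∞ (fq m) := by unfold fq; fun_prop
theorem fv_smooth (m : ℕ) : ContDiff ℝ ∞ (fv m) := by unfold fv; fun_prop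
theorem fz_smooth (m : ℕ) : ContDiff ℝ ∞ (fz m) := by unfold fz; fun_prop
theorem fA_smooth (m : ℕ) : ContDiff ℝ ∞ (fA m) := by unfold fA; fun_prop
theorem fB_smooth (m : ℕ) : ContDiff ℝ ∞ (fB m) := by unfold fB; fun_prop
theorem fC_smooth (m : ℕ) : ContDiff ℝ ∞ (fC m) := by unfold fC; fun_prop
theorem fmu_smooth (m : ℕ) : ContDiff ℝ ∞ (fmu m) := by
  unfold fmu
  exact ContDiff.div ((fq_smooth m).mul ((fv_smooth m).pow 2))
    ((fq_smooth m).add ((fv_smooth m).pow 2)) (fun p => (fqv_pos m p).ne')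
theorem fk_smooth (m : ℕ) : ContDiff ℝ ∞ (fk m) := by
  unfold fk
  exact ContDiff.div ((((fB_smooth m).pow 2).add ((fC_smooth m).pow 2)).sub
    (((fA_smooth m).pow 2).div_const 4))
    ((fq_smooth m).add ((fv_smooth m).pow 2)) (fun p => (fqv_pos m p).ne')
theorem fs_smooth (m : ℕ) : ContDiff ℝ ∞ (fs m) := by
  unfold fs
  exact (((fA_smooth m).pow 2).div_const 4).add ((fk_smooth m).mul (fq_smooth m))

theorem dAt {P : Type*} [NormedAddCommGroup P] [NormedSpace ℝ P] {F : P → ℝ}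
    (hF : ContDiff ℝ ∞ F) (p : P) : HasFDerivAt F (fderiv ℝ F p) p :=
  (hF.differentiable (by simp)).differentiableAt.hasFDerivAt

theorem fderiv_of_line {P : Type*} [NormedAddCommGroup P] [NormedSpace ℝ P] {F : P → ℝ}
    (hF : ContDiff ℝ ∞ F) (p w : P) (d : ℝ)
    (h : HasDerivAt (fun e : ℝ => F (p + e • w)) d 0) : fderiv ℝ F p w = d := by
  have hc : HasDerivAt (fun e : ℝ => p + e • w) w 0 := by
    have := ((hasDerivAt_id (0 : ℝ)).smul_const w).const_add p
    simpa using this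
  have hd' : HasFDerivAt F (fderiv ℝ F p) (p + (0 : ℝ) • w) := by
    simpa using dAt hF p
  exact (hd'.comp_hasDerivAt (0 : ℝ) hc).unique h

/-- a coordinate along a line -/
theorem line1 (a b : ℝ) : HasDerivAt (fun e : ℝ => a + e * b) b 0 := by
  have := ((hasDerivAt_id (0 : ℝ)).mul_const b).const_add a
  simpa using this

theorem D_fq (m : ℕ) (p w : PP m) :
    fderiv ℝ (fq m) p w = fq m p * (2 * w.1 0) := by
  apply fderiv_of_line (fq_smooth m)
  have h := ((line1 (p.1 0) (w.1 0)).const_mul 2).exp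
  simp only [zero_mul, add_zero] at h
  exact h

theorem D_fv (m : ℕ) (p w : PP m) :
    fderiv ℝ (fv m) p w = fv m p * w.1 1 := by
  apply fderiv_of_line (fv_smooth m)
  have h := (line1 (p.1 1) (w.1 1)).exp
  simp only [zero_mul, add_zero] at h
  exact h

theorem D_fz (m : ℕ) (p w : PP m) : fderiv ℝ (fz m) p w = w.1 2 := by
  apply fderiv_of_line (fz_smooth m)
  exact line1 (p.1 2) (w.1 2)

theorem D_fA (m : ℕ) (p w : PP m) :
    fderiv ℝ (fA m) p w = 2 * (Real.exp (2 * (p.1 0 - p.1 1)) * (2 * (w.1 0 - w.1 1))) * p.2 0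
      + 2 * (1 + Real.exp (2 * (p.1 0 - p.1 1))) * w.2 0 := by
  apply fderiv_of_line (fA_smooth m)
  have h : HasDerivAt (fun e : ℝ => fA m (p + e • w)) _ 0 :=
    (((((line1 (p.1 0) (w.1 0)).sub (line1 (p.1 1) (w.1 1))).const_mul 2).exp.const_add
    1).const_mul 2).mul (line1 (p.2 0) (w.2 0))
  exact h.congr_deriv (by simp)

theorem D_fB (m : ℕ) (p w : PP m) :
    fderiv ℝ (fB m) p w = (Real.exp (p.1 1) * w.1 1
          * (Real.exp (-(2 * p.1 0)) + Real.exp (-(2 * p.1 1)))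
        + Real.exp (p.1 1) * (Real.exp (-(2 * p.1 0)) * (-(2 * w.1 0))
          + Real.exp (-(2 * p.1 1)) * (-(2 * w.1 1)))) * p.2 1
      + Real.exp (p.1 1) * (Real.exp (-(2 * p.1 0)) + Real.exp (-(2 * p.1 1))) * w.2 1 := by
  apply fderiv_of_line (fB_smooth m)
  have h : HasDerivAt (fun e : ℝ => fB m (p + e • w)) _ 0 :=
    ((line1 (p.1 1) (w.1 1)).exp.mul
    ((((line1 (p.1 0) (w.1 0)).const_mul 2).neg.exp).add
      (((line1 (p.1 1) (w.1 1)).const_mul 2).neg.exp))).mul (line1 (p.2 1) (w.2 1))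
  exact h.congr_deriv (by simp)

theorem D_fC (m : ℕ) (p w : PP m) :
    fderiv ℝ (fC m) p w = Real.exp (2 * (p.1 1 - p.1 0)) * (2 * (w.1 1 - w.1 0)) * p.2 2
      + (1 + Real.exp (2 * (p.1 1 - p.1 0))) * w.2 2 := by
  apply fderiv_of_line (fC_smooth m)
  have h : HasDerivAt (fun e : ℝ => fC m (p + e • w)) _ 0 :=
    ((((line1 (p.1 1) (w.1 1)).sub (line1 (p.1 0) (w.1 0))).const_mul 2).exp.const_add
    1).mul (line1 (p.2 2) (w.2 2))
  exact h.congr_deriv (by simp)

/-! ### exponentials in terms of `q` and `v` -/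

theorem e_a (m : ℕ) (p : PP m) : Real.exp (2 * (p.1 0 - p.1 1)) = fq m p / fv m p ^ 2 := by
  unfold fq fv
  rw [← Real.exp_nat_mul, ← Real.exp_sub]
  congr 1
  push_cast
  ring

theorem e_b (m : ℕ) (p : PP m) : Real.exp (2 * (p.1 1 - p.1 0)) = fv m p ^ 2 / fq m p := by
  unfold fq fv
  rw [← Real.exp_nat_mul, ← Real.exp_sub]
  congr 1
  push_cast
  ring

theorem e_s (m : ℕ) (p : PP m) : Real.exp (-(2 * p.1 0)) = 1 / fq m p := by
  unfold fq
  rw [Real.exp_neg, one_div]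

theorem e_y (m : ℕ) (p : PP m) : Real.exp (-(2 * p.1 1)) = 1 / fv m p ^ 2 := by
  unfold fv
  rw [← Real.exp_nat_mul, Real.exp_neg, one_div]
  congr 2

theorem fA_eq (m : ℕ) (p : PP m) :
    fA m p = 2 * (1 + fq m p / fv m p ^ 2) * p.2 0 := by
  unfold fA
  rw [e_a]

theorem fB_eq (m : ℕ) (p : PP m) :
    fB m p = fv m p * (1 / fq m p + 1 / fv m p ^ 2) * p.2 1 := by
  unfold fB
  rw [e_s, e_y]
  rfl

theorem fC_eq (m : ℕ) (p : PP m) :
    fC m p = (1 + fv m p ^ 2 / fq m p) * p.2 2 := by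
  unfold fC
  rw [e_b]

theorem XX_snd_zero (m : ℕ) (p : PP m) : (XX m p).2 0 =
    -((fq m p / fv m p ^ 2 * (p.2 0 * p.2 0 - p.2 0 * p.2 1 - p.2 1 * p.2 0)
        + 1 / fq m p * (p.2 1 * p.2 1)
        + fv m p ^ 2 / fq m p * (p.2 2 * p.2 2)) / (1 + fq m p / fv m p ^ 2)) := by
  rw [← e_a, ← e_b, ← e_s]
  rfl

theorem XX_snd_one (m : ℕ) (p : PP m) : (XX m p).2 1 =
    -((-(1 / fq m p) * (p.2 0 * p.2 1 + p.2 1 * p.2 0)
          - 1 / fv m p ^ 2 * (p.2 1 * p.2 1)
          + fq m p / fv m p ^ 2 * (p.2 0 * p.2 0)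
          - fv m p ^ 2 / fq m p * (p.2 2 * p.2 2))
        / (1 / fq m p + 1 / fv m p ^ 2)) := by
  rw [← e_a, ← e_b, ← e_s, ← e_y]
  rfl

theorem XX_snd_two (m : ℕ) (p : PP m) : (XX m p).2 2 =
    -(fv m p ^ 2 / fq m p * ((p.2 1 - p.2 0) * p.2 2 + (p.2 1 - p.2 0) * p.2 2)
          / (1 + fv m p ^ 2 / fq m p)) := by
  rw [← e_b]
  rfl

theorem XX_fst (m : ℕ) (p : PP m) (i : Fin (m + 3)) : (XX m p).1 i = p.2 i := rfl

/-! ### derivatives along the geodesic flow -/

theorem L_fq (m : ℕ) (p : PP m) : fderiv ℝ (fq m) p (XX m p) = fA m p * fmu m p := by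
  rw [D_fq, XX_fst, fA_eq, fmu]
  have hq := fq_pos m p
  have hv := fv_pos m p
  generalize fq m p = q at *
  generalize fv m p = v at *
  field_simp
  ring

theorem L_fv (m : ℕ) (p : PP m) : fderiv ℝ (fv m) p (XX m p) = fB m p * fmu m p := by
  rw [D_fv, XX_fst, fB_eq, fmu]
  have hq := fq_pos m p
  have hv := fv_pos m p
  generalize fq m p = q at *
  generalize fv m p = v at *
  field_simp
  ring

theorem L_fz (m : ℕ) (p : PP m) :
    fderiv ℝ (fz m) p (XX m p) = fC m p * fmu m p / fv m p ^ 2 := by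
  rw [D_fz, XX_fst, fC_eq, fmu]
  have hq := fq_pos m p
  have hv := fv_pos m p
  generalize fq m p = q at *
  generalize fv m p = v at *
  field_simp

theorem L_fA (m : ℕ) (p : PP m) : fderiv ℝ (fA m) p (XX m p) = -2 * fk m p * fmu m p := by
  rw [D_fA, XX_fst, XX_fst, XX_snd_zero, fk, fmu, fA_eq, fB_eq, fC_eq, e_a]
  have hq := fq_pos m p
  have hv := fv_pos m p
  generalize fq m p = q at *
  generalize fv m p = v at *
  field_simp
  ring

theorem L_fB (m : ℕ) (p : PP m) : fderiv ℝ (fB m) p (XX m p) = fk m p * fv m p * fmu m p := by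
  rw [D_fB, XX_fst, XX_fst, XX_snd_one, fk, fmu, fA_eq, fB_eq, fC_eq, e_s, e_y]
  have hv1 : Real.exp (p.1 1) = fv m p := rfl
  rw [hv1]
  have hq := fq_pos m p
  have hv := fv_pos m p
  generalize fq m p = q at *
  generalize fv m p = v at *
  field_simp
  ring

theorem L_fC (m : ℕ) (p : PP m) : fderiv ℝ (fC m) p (XX m p) = 0 := by
  rw [D_fC, XX_fst, XX_fst, XX_snd_two, e_b]
  have hq := fq_pos m p
  have hv := fv_pos m p
  generalize fq m p = q at *
  generalize fv m p = v at *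
  field_simp
  ring

/-! ### derivatives of the composite functions -/

theorem line_of (m : ℕ) {F : PP m → ℝ} (hF : ContDiff ℝ ∞ F) (p w : PP m) :
    HasDerivAt (fun e : ℝ => F (p + e • w)) (fderiv ℝ F p w) 0 := by
  have hc : HasDerivAt (fun e : ℝ => p + e • w) w 0 := by
    have := ((hasDerivAt_id (0 : ℝ)).smul_const w).const_add p
    simpa using this
  have hd' : HasFDerivAt F (fderiv ℝ F p) (p + (0 : ℝ) • w) := by
    simpa using dAt hF p
  exact hd'.comp_hasDerivAt (0 : ℝ) hc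

theorem D_mul (m : ℕ) {F G : PP m → ℝ} (hF : ContDiff ℝ ∞ F) (hG : ContDiff ℝ ∞ G)
    (p w : PP m) : fderiv ℝ (fun p => F p * G p) p w
      = fderiv ℝ F p w * G p + F p * fderiv ℝ G p w := by
  apply fderiv_of_line (hF.mul hG)
  have h : HasDerivAt (fun e : ℝ => F (p + e • w) * G (p + e • w)) _ 0 :=
    (line_of m hF p w).mul (line_of m hG p w)
  exact h.congr_deriv (by simp)

theorem D_fmu (m : ℕ) (p w : PP m) : fderiv ℝ (fmu m) p w
    = fmu m p ^ 2 * (fderiv ℝ (fq m) p w / fq m p ^ 2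
      + 2 * fderiv ℝ (fv m) p w / fv m p ^ 3) := by
  apply fderiv_of_line (fmu_smooth m)
  have hq := fq_pos m p
  have hv := fv_pos m p
  have hqv := fqv_pos m p
  have h : HasDerivAt (fun e : ℝ => fmu m (p + e • w)) _ 0 :=
    ((line_of m (fq_smooth m) p w).mul ((line_of m (fv_smooth m) p w).pow 2)).div
      ((line_of m (fq_smooth m) p w).add ((line_of m (fv_smooth m) p w).pow 2))
      (by simpa using hqv.ne')
  refine h.congr_deriv ?_
  simp only [fmu]
  simp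
  generalize fderiv ℝ (fq m) p w = dq
  generalize fderiv ℝ (fv m) p w = dv
  generalize fq m p = q at *
  generalize fv m p = v at *
  field_simp
  ring

/-- `κ (q + v²) = B² + C² - A²/4`, differentiated -/
theorem D_fk (m : ℕ) (p w : PP m) :
    fderiv ℝ (fk m) p w * (fq m p + fv m p ^ 2)
      + fk m p * (fderiv ℝ (fq m) p w + 2 * fv m p * fderiv ℝ (fv m) p w)
      = 2 * fB m p * fderiv ℝ (fB m) p w + 2 * fC m p * fderiv ℝ (fC m) p w
        - fA m p * fderiv ℝ (fA m) p w / 2 := by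
  have h1 : HasDerivAt (fun e : ℝ => fk m (p + e • w)
      * (fq m (p + e • w) + fv m (p + e • w) ^ 2)) _ 0 :=
    (line_of m (fk_smooth m) p w).mul
      ((line_of m (fq_smooth m) p w).add ((line_of m (fv_smooth m) p w).pow 2))
  have h2 : HasDerivAt (fun e : ℝ => fB m (p + e • w) ^ 2 + fC m (p + e • w) ^ 2
      - fA m (p + e • w) ^ 2 / 4) _ 0 :=
    (((line_of m (fB_smooth m) p w).pow 2).add ((line_of m (fC_smooth m) p w).pow 2)).sub
      (((line_of m (fA_smooth m) p w).pow 2).div_const 4)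
  have he : (fun e : ℝ => fk m (p + e • w) * (fq m (p + e • w) + fv m (p + e • w) ^ 2))
      = (fun e : ℝ => fB m (p + e • w) ^ 2 + fC m (p + e • w) ^ 2 - fA m (p + e • w) ^ 2 / 4) := by
    funext e
    have hqv := fqv_pos m (p + e • w)
    unfold fk
    field_simp
  rw [he] at h1
  have h := h1.unique h2
  simp at h
  linarith

theorem D_fs (m : ℕ) (p w : PP m) :
    fderiv ℝ (fs m) p w = fA m p * fderiv ℝ (fA m) p w / 2
      + fderiv ℝ (fk m) p w * fq m p + fk m p * fderiv ℝ (fq m) p w := by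
  apply fderiv_of_line (fs_smooth m)
  have h : HasDerivAt (fun e : ℝ => fs m (p + e • w)) _ 0 :=
    (((line_of m (fA_smooth m) p w).pow 2).div_const 4).add
      ((line_of m (fk_smooth m) p w).mul (line_of m (fq_smooth m) p w))
  refine h.congr_deriv ?_
  simp
  ring

theorem L_fk (m : ℕ) (p : PP m) : fderiv ℝ (fk m) p (XX m p) = 0 := by
  have h := D_fk m p (XX m p)
  rw [L_fq, L_fv, L_fA, L_fB, L_fC] at h
  have hqv := fqv_pos m p
  have h2 : fderiv ℝ (fk m) p (XX m p) * (fq m p + fv m p ^ 2) = 0 := by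
    linarith
  rcases mul_eq_zero.mp h2 with h3 | h3
  · exact h3
  · exact absurd h3 hqv.ne'

theorem L_fs (m : ℕ) (p : PP m) : fderiv ℝ (fs m) p (XX m p) = 0 := by
  rw [D_fs, L_fk, L_fA, L_fq]
  ring

theorem rel1 (m : ℕ) (p : PP m) : fA m p ^ 2 = 4 * (fs m p - fk m p * fq m p) := by
  unfold fs
  ring

theorem rel2 (m : ℕ) (p : PP m) :
    fB m p ^ 2 + fC m p ^ 2 = fs m p + fk m p * fv m p ^ 2 := by
  have hqv := fqv_pos m p
  unfold fs fk
  field_simp
  ring

theorem fs_nonneg (m : ℕ) (p : PP m) : 0 ≤ fs m p := by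
  have hqv := fqv_pos m p
  have hq := fq_pos m p
  have e : fs m p = (fv m p ^ 2 * fA m p ^ 2 / 4 + fq m p * (fB m p ^ 2 + fC m p ^ 2))
      / (fq m p + fv m p ^ 2) := by
    unfold fs fk
    field_simp
    ring
  rw [e]
  positivity

theorem drel1 (m : ℕ) (p w : PP m) : fA m p * fderiv ℝ (fA m) p w
    = 2 * (fderiv ℝ (fs m) p w - fderiv ℝ (fk m) p w * fq m p
      - fk m p * fderiv ℝ (fq m) p w) := by
  rw [D_fs]
  ring

theorem drel2 (m : ℕ) (p w : PP m) :
    2 * fB m p * fderiv ℝ (fB m) p w + 2 * fC m p * fderiv ℝ (fC m) p w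
      = fderiv ℝ (fs m) p w + fderiv ℝ (fk m) p w * fv m p ^ 2
        + 2 * fk m p * fv m p * fderiv ℝ (fv m) p w := by
  have h := D_fk m p w
  rw [D_fs]
  linarith

end Pool.Agent.NC76
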