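import Mathlib

/-!
# Linearised flows: first integrals and uniqueness (abstract)

`first_lin`: differentiate `DF(p)(X p) = G p` in the direction `j`; with the symmetry of `D²F` this
is the derivative of `DF(c)(j)` along `c' = X(c)`, `j' = DX(c) j`.
`lin_unique`: a solution of the linear equation `j' = DX(c(t)) j` which vanishes once is zero
(`ODE_solution_unique` on `[-N, N]`, the operator norm being bounded there by continuity).
-/

set_option autoImplicit false

namespace Pool.Agent.NC76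

theorem first_lin {P : Type*} [NormedAddCommGroup P] [NormedSpace ℝ P]
    (X : P → P) (hX : ContDiff ℝ 1 X) (F G : P → ℝ) (hF : ContDiff ℝ 2 F)
    (hFG : ∀ p, fderiv ℝ F p (X p) = G p)
    (c j : ℝ → P) (hc : ∀ t, HasDerivAt c (X (c t)) t)
    (hj : ∀ t, HasDerivAt j (fderiv ℝ X (c t) (j t)) t) (t : ℝ) :
    HasDerivAt (fun t => F (c t)) (G (c t)) t ∧
      HasDerivAt (fun t => fderiv ℝ F (c t) (j t)) (fderiv ℝ G (c t) (j t)) t := by
  constructor
  · have h1 : HasFDerivAt F (fderiv ℝ F (c t)) (c t) :=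
      ((hF.differentiable (by norm_num)) (c t)).hasFDerivAt
    have h2 := h1.comp_hasDerivAt t (hc t)
    rw [hFG] at h2
    exact h2
  · have hD : ContDiff ℝ 1 (fderiv ℝ F) := hF.fderiv_right (m := 1) (by norm_num)
    have hDd : HasFDerivAt (fderiv ℝ F) (fderiv ℝ (fderiv ℝ F) (c t)) (c t) :=
      ((hD.differentiable (by norm_num)) (c t)).hasFDerivAt
    have hXd : HasFDerivAt X (fderiv ℝ X (c t)) (c t) :=
      ((hX.differentiable (by norm_num)) (c t)).hasFDerivAt
    have h1 : HasDerivAt (fun t => fderiv ℝ F (c t))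
        (fderiv ℝ (fderiv ℝ F) (c t) (X (c t))) t := hDd.comp_hasDerivAt t (hc t)
    have h2 := h1.clm_apply (hj t)
    have h3 : HasFDerivAt G ((fderiv ℝ F (c t)).comp (fderiv ℝ X (c t)) +
        (fderiv ℝ (fderiv ℝ F) (c t)).flip (X (c t))) (c t) := by
      have := hDd.clm_apply hXd
      have hG : G = fun p => fderiv ℝ F p (X p) := funext fun p => (hFG p).symm
      rw [hG]
      exact this
    have hsymm : IsSymmSndFDerivAt ℝ F (c t) :=
      hF.contDiffAt.isSymmSndFDerivAt (by simp)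
    have h4 : fderiv ℝ G (c t) (j t) = (fderiv ℝ (fderiv ℝ F) (c t) (X (c t))) (j t) +
        (fderiv ℝ F (c t)) (fderiv ℝ X (c t) (j t)) := by
      rw [h3.fderiv]
      simp only [add_apply, ContinuousLinearMap.comp_apply,
        ContinuousLinearMap.flip_apply]
      rw [hsymm (j t) (X (c t)), add_comm]
    rw [h4]
    exact h2

theorem lin_unique {P : Type*} [NormedAddCommGroup P] [NormedSpace ℝ P]
    (X : P → P) (hX : ContDiff ℝ 1 X)
    (c j : ℝ → P) (hc : Continuous c)
    (hj : ∀ t, HasDerivAt j (fderiv ℝ X (c t) (j t)) t) (a : ℝ) (ha : j a = 0) (t : ℝ) :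
    j t = 0 := by
  obtain ⟨N, hN1, hN2⟩ : ∃ N : ℝ, |a| < N ∧ |t| < N :=
    ⟨max |a| |t| + 1, by linarith [le_max_left |a| |t|], by linarith [le_max_right |a| |t|]⟩
  have hcont : Continuous (fun s => ‖fderiv ℝ X (c s)‖₊) :=
    ((hX.continuous_fderiv (by norm_num)).comp hc).nnnorm
  obtain ⟨K, hK⟩ : ∃ K : NNReal, ∀ s ∈ Set.Icc (-N) N, ‖fderiv ℝ X (c s)‖₊ ≤ K := by
    obtain ⟨K, hK⟩ := (isCompact_Icc (a := -N) (b := N)).bddAbove_image hcont.continuousOn
    exact ⟨K, fun s hs => hK ⟨s, hs, rfl⟩⟩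
  have key := ODE_solution_unique_of_mem_Ioo (v := fun s x => fderiv ℝ X (c s) x)
    (s := fun _ => Set.univ) (K := K) (f := j) (g := fun _ => (0 : P)) (a := -N) (b := N) (t₀ := a)
    (fun s hs => by
      apply LipschitzWith.lipschitzOnWith
      exact (fderiv ℝ X (c s)).lipschitz.weaken (hK s ⟨hs.1.le, hs.2.le⟩))
    (abs_lt.1 hN1) (fun s _ => ⟨hj s, trivial⟩)
    (fun s _ => ⟨by simpa using hasDerivAt_const s (0 : P), trivial⟩) (by simpa using ha)
  exact key (abs_lt.1 hN2)

end Pool.Agent.NC76
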