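import Mathlib
import Pool.Agent.NC76.Defs
import Pool.Agent.NC76.Met
import Pool.Agent.NC76.Gam
import Pool.Agent.NC76.Jac
import Pool.Agent.NC76.Fun
import Pool.Agent.NC76.Lin
import Pool.Agent.NC76.Core

/-!
# The metric has no conjugate points
-/

set_option autoImplicit false

namespace Pool.Agent.NC76

open scoped ContDiff

theorem const_of {f : ℝ → ℝ} (h : ∀ t, HasDerivAt f 0 t) (a t : ℝ) : f t = f a :=
  is_const_of_deriv_eq_zero (fun t => (h t).differentiableAt) (fun t => (h t).deriv) t a

theorem noConj_lt (m : ℕ) (γ J : ℝ → Fin (m + 3) → ℝ) (hγ : (gm m).IsGeodesic γ)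
    (hJ : (gm m).IsJacobi γ J) (a b : ℝ) (hab : a < b) (ha : J a = 0) (hb : J b = 0) (t : ℝ) :
    J t = 0 := by
  obtain ⟨hc, hj⟩ := jac_lin m γ J hγ hJ
  set c : ℝ → PP m := fun t => (γ t, deriv γ t) with hcdef
  set j : ℝ → PP m := fun t => (J t, deriv J t) with hjdef
  have hX : ContDiff ℝ 1 (XX m) := (XX_smooth m).of_le (by simp)
  have two : ∀ {F : PP m → ℝ}, ContDiff ℝ ∞ F → ContDiff ℝ 2 F := fun h =>
    contDiff_infty.mp h 2
  have fl := fun (F G : PP m → ℝ) (hF : ContDiff ℝ ∞ F)
    (hFG : ∀ p, fderiv ℝ F p (XX m p) = G p) =>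
      first_lin (XX m) hX F G (two hF) hFG c j hc hj
  -- the eight functions
  have Lq := fl (fq m) (fun p => fA m p * fmu m p) (fq_smooth m) (L_fq m)
  have Lv := fl (fv m) (fun p => fB m p * fmu m p) (fv_smooth m) (L_fv m)
  have Lz := fl (fz m) (fun p => fC m p * fmu m p / fv m p ^ 2) (fz_smooth m) (L_fz m)
  have LA := fl (fA m) (fun p => -2 * fk m p * fmu m p) (fA_smooth m) (L_fA m)
  have LB := fl (fB m) (fun p => fk m p * fv m p * fmu m p) (fB_smooth m) (L_fB m)
  have LC := fl (fC m) (fun _ => 0) (fC_smooth m) (L_fC m)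
  have Lk := fl (fk m) (fun _ => 0) (fk_smooth m) (L_fk m)
  have Ls := fl (fs m) (fun _ => 0) (fs_smooth m) (L_fs m)
  have z0 : ∀ p w : PP m, fderiv ℝ (fun _ : PP m => (0 : ℝ)) p w = 0 := by
    intro p w; simp
  have cC : ∀ t, fC m (c t) = fC m (c a) := const_of (fun t => (LC t).1) a
  have ck : ∀ t, fk m (c t) = fk m (c a) := const_of (fun t => (Lk t).1) a
  have cs : ∀ t, fs m (c t) = fs m (c a) := const_of (fun t => (Ls t).1) a
  have dcC : ∀ t, fderiv ℝ (fC m) (c t) (j t) = fderiv ℝ (fC m) (c a) (j a) :=
    const_of (fun t => by have h := (LC t).2; rw [z0] at h; exact h) a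
  have dck : ∀ t, fderiv ℝ (fk m) (c t) (j t) = fderiv ℝ (fk m) (c a) (j a) :=
    const_of (fun t => by have h := (Lk t).2; rw [z0] at h; exact h) a
  have dcs : ∀ t, fderiv ℝ (fs m) (c t) (j t) = fderiv ℝ (fs m) (c a) (j a) :=
    const_of (fun t => by have h := (Ls t).2; rw [z0] at h; exact h) a
  have j1a : (j a).1 = 0 := ha
  have j1b : (j b).1 = 0 := hb
  have key := core (fun t => fq m (c t)) (fun t => fv m (c t)) (fun t => fA m (c t))
    (fun t => fB m (c t))
    (fun t => fderiv ℝ (fq m) (c t) (j t)) (fun t => fderiv ℝ (fv m) (c t) (j t))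
    (fun t => fderiv ℝ (fz m) (c t) (j t)) (fun t => fderiv ℝ (fA m) (c t) (j t))
    (fun t => fderiv ℝ (fB m) (c t) (j t)) (fun t => fmu m (c t))
    (fun t => fderiv ℝ (fmu m) (c t) (j t))
    (fC m (c a)) (fk m (c a)) (fs m (c a)) (fderiv ℝ (fC m) (c a) (j a))
    (fderiv ℝ (fk m) (c a) (j a)) (fderiv ℝ (fs m) (c a) (j a)) a b hab
    (fun t => fq_pos m (c t)) (fun t => fv_pos m (c t)) (fs_nonneg m (c a))
    (fun t => rfl) (fun t => D_fmu m (c t) (j t))
    (fun t => (Lq t).1) (fun t => (Lv t).1)
    (fun t => by have h := (LA t).1; rw [ck t] at h; exact h)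
    (fun t => by have h := (LB t).1; rw [ck t] at h; exact h)
    (fun t => by
      have h := (Lq t).2
      rw [D_mul m (fA_smooth m) (fmu_smooth m)] at h
      exact h)
    (fun t => by
      have h := (Lv t).2
      rw [D_mul m (fB_smooth m) (fmu_smooth m)] at h
      exact h)
    (fun t => by
      have h := (Lz t).2
      refine h.congr_deriv ?_
      rw [← dcC t, ← cC t]
      have hv := fv_pos m (c t)
      have hh : HasDerivAt (fun e : ℝ => fC m (c t + e • j t) * fmu m (c t + e • j t)
          / fv m (c t + e • j t) ^ 2) _ 0 :=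
        ((line_of m (fC_smooth m) (c t) (j t)).mul (line_of m (fmu_smooth m) (c t) (j t))).div
          ((line_of m (fv_smooth m) (c t) (j t)).pow 2) (by simpa using hv.ne')
      have e := fderiv_of_line (F := fun p : PP m => fC m p * fmu m p / fv m p ^ 2)
        (ContDiff.div ((fC_smooth m).mul (fmu_smooth m))
        ((fv_smooth m).pow 2) (fun p => by have := fv_pos m p; positivity)) (c t) (j t) _ hh
      rw [e]
      simp
      field_simp
      ring)
    (fun t => by
      have h := (LA t).2
      refine h.congr_deriv ?_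
      have hh : HasDerivAt (fun e : ℝ => -2 * fk m (c t + e • j t) * fmu m (c t + e • j t)) _ 0 :=
        ((line_of m (fk_smooth m) (c t) (j t)).const_mul (-2)).mul
          (line_of m (fmu_smooth m) (c t) (j t))
      have e := fderiv_of_line (F := fun p : PP m => -2 * fk m p * fmu m p)
        (((contDiff_const (c := (-2 : ℝ))).mul (fk_smooth m)).mul
        (fmu_smooth m)) (c t) (j t) _ hh
      rw [e, ← dck t, ← ck t]
      simp
      ring)
    (fun t => by
      have h := (LB t).2
      refine h.congr_deriv ?_
      have hh : HasDerivAt (fun e : ℝ => fk m (c t + e • j t) * fv m (c t + e • j t)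
          * fmu m (c t + e • j t)) _ 0 :=
        ((line_of m (fk_smooth m) (c t) (j t)).mul (line_of m (fv_smooth m) (c t) (j t))).mul
          (line_of m (fmu_smooth m) (c t) (j t))
      have e := fderiv_of_line (F := fun p : PP m => fk m p * fv m p * fmu m p)
        (((fk_smooth m).mul (fv_smooth m)).mul
        (fmu_smooth m)) (c t) (j t) _ hh
      rw [e, ← dck t, ← ck t]
      simp
      ring)
    (fun t => by
      have h := rel1 m (c t)
      rw [cs t, ck t] at h
      exact h)
    (fun t => by
      have h := rel2 m (c t)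
      rw [cs t, ck t, cC t] at h
      exact h)
    (fun t => by
      have h := drel1 m (c t) (j t)
      rw [dcs t, dck t, ck t] at h
      exact h)
    (fun t => by
      have h := drel2 m (c t) (j t)
      rw [dcs t, dck t, ck t, dcC t, cC t] at h
      exact h)
    (by show fderiv ℝ (fq m) (c a) (j a) = 0; rw [D_fq, j1a]; simp)
    (by show fderiv ℝ (fq m) (c b) (j b) = 0; rw [D_fq, j1b]; simp)
    (by show fderiv ℝ (fv m) (c a) (j a) = 0; rw [D_fv, j1a]; simp)
    (by show fderiv ℝ (fv m) (c b) (j b) = 0; rw [D_fv, j1b]; simp)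
    (by show fderiv ℝ (fz m) (c a) (j a) = 0; rw [D_fz, j1a]; simp)
    (by show fderiv ℝ (fz m) (c b) (j b) = 0; rw [D_fz, j1b]; simp)
  obtain ⟨kA, kB, kC⟩ := key
  have j2 : (j a).2 = 0 := by
    funext k
    show (j a).2 k = 0
    revert k
    apply fin_cases3
    · have h : fderiv ℝ (fA m) (c a) (j a) = 0 := kA
      rw [D_fA, j1a] at h
      have hp : 0 < 1 + Real.exp (2 * ((c a).1 0 - (c a).1 1)) := by positivity
      simp at h
      rcases h with h | h
      · exact absurd h hp.ne'
      · exact h
    · have h : fderiv ℝ (fB m) (c a) (j a) = 0 := kB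
      rw [D_fB, j1a] at h
      have hp : 0 < Real.exp (-(2 * (c a).1 0)) + Real.exp (-(2 * (c a).1 1)) := by positivity
      simp at h
      rcases h with h | h
      · exact absurd h hp.ne'
      · exact h
    · rw [D_fC, j1a] at kC
      have hp : 0 < 1 + Real.exp (2 * ((c a).1 1 - (c a).1 0)) := by positivity
      simp at kC
      rcases kC with h | h
      · exact absurd h hp.ne'
      · exact h
    · intro i
      -- the remaining coordinates are affine functions
      have hd1 : ∀ t, HasDerivAt (fun t => (j t).2 i.succ.succ.succ) 0 t := by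
        intro t
        have h := fl (fun p => p.2 i.succ.succ.succ) (fun _ => 0) (by fun_prop) ?_ t
        · have h2 := h.2
          rw [z0] at h2
          have e : ∀ p w : PP m, fderiv ℝ (fun p : PP m => p.2 i.succ.succ.succ) p w
              = w.2 i.succ.succ.succ := by
            intro p w
            apply fderiv_of_line (by fun_prop)
            exact line1 _ _
          simp only [e] at h2
          exact h2
        · intro p
          apply fderiv_of_line (by fun_prop)
          have h3 := line1 (p.2 i.succ.succ.succ) 0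
          have e : (fun e : ℝ => (p + e • XX m p).2 i.succ.succ.succ)
              = fun e : ℝ => p.2 i.succ.succ.succ + e * 0 := by
            funext e
            show p.2 i.succ.succ.succ + e * (-(0 : ℝ)) = _
            ring
          rw [e]
          exact h3
      have hc2 : ∀ t, (j t).2 i.succ.succ.succ = (j a).2 i.succ.succ.succ := const_of hd1 a
      have hd0 : ∀ t, HasDerivAt (fun t => J t i.succ.succ.succ)
          ((j a).2 i.succ.succ.succ) t := by
        intro t
        have h := (hasDerivAt_pi.mp ((hJ.1 t).hasDerivAt)) i.succ.succ.succ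
        rw [← hc2 t]
        exact h
      have hlin : ∀ t, HasDerivAt (fun t => J t i.succ.succ.succ
          - (j a).2 i.succ.succ.succ * t) 0 t := by
        intro t
        have h := (hd0 t).sub ((hasDerivAt_id t).const_mul ((j a).2 i.succ.succ.succ))
        refine HasDerivAt.congr_deriv (f := fun t => J t i.succ.succ.succ
          - (j a).2 i.succ.succ.succ * t) h ?_
        simp
      have h := const_of hlin a b
      simp only [ha, hb, Pi.zero_apply] at h
      have h2 : (j a).2 i.succ.succ.succ * (b - a) = 0 := by linarith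
      rcases mul_eq_zero.mp h2 with h3 | h3
      · exact h3
      · exact absurd h3 (sub_ne_zero.mpr hab.ne')
  have hja : j a = 0 := Prod.ext j1a j2
  have hcc : Continuous c := continuous_iff_continuousAt.mpr fun t => (hc t).continuousAt
  have hfin := lin_unique (XX m) hX c j hcc hj a hja t
  exact congrArg Prod.fst hfin

theorem noConj_gm (m : ℕ) : (gm m).NoConjugatePoints := by
  intro γ J hγ hJ a b hab ha hb t
  rcases lt_or_gt_of_ne hab with h | h
  · exact noConj_lt m γ J hγ hJ a b h ha hb t
  · exact noConj_lt m γ J hγ hJ b a h hb ha t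

end Pool.Agent.NC76
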