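import Mathlib
import Pool.Agent.NC76.Defs
import Pool.Agent.NC76.Met
import Pool.Agent.NC76.Gam
import Pool.Agent.NC76.RayDef

/-!
# The rays are unit speed geodesics

`F(s) = s + τ(s)/v(s)` has `F'(s) = 1 + e^{2s}/v(s)² ≥ 1`, so it is a bijection of `ℝ`; `φ` is its
inverse, `φ' = 1/F'(φ)`. Geodesic equation: `γ'' = - GG γ γ' γ'` (by `gam_eq`), checked
componentwise, with `e^{2s} = 1 + 2 τ`, `e^y = v`, `(4/5)² + c² = 1`.
-/

set_option autoImplicit false

namespace Pool.Agent.NC76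

theorem vv_eq (s : ℝ) : vv s = 3 / 5 + 2 / 5 * Real.exp (2 * s) := by
  unfold vv tau
  ring

theorem vv_pos (s : ℝ) : 0 < vv s := by
  rw [vv_eq]
  positivity

/-- the arc length -/
noncomputable def FF (s : ℝ) : ℝ := s + tau s / vv s

theorem hasDerivAt_E (s : ℝ) : HasDerivAt (fun s => Real.exp (2 * s)) (2 * Real.exp (2 * s)) s := by
  have h1 : HasDerivAt (fun s : ℝ => 2 * s) 2 s := by
    simpa using (hasDerivAt_id s).const_mul 2
  have := h1.exp
  rwa [mul_comm] at this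

theorem hasDerivAt_tau (s : ℝ) : HasDerivAt tau (Real.exp (2 * s)) s := by
  have h := ((hasDerivAt_E s).sub_const 1).div_const 2
  have e : 2 * Real.exp (2 * s) / 2 = Real.exp (2 * s) := by ring
  rw [e] at h
  exact h

theorem hasDerivAt_vv (s : ℝ) : HasDerivAt vv (4 / 5 * Real.exp (2 * s)) s :=
  ((hasDerivAt_tau s).const_mul (4 / 5)).const_add 1

theorem hasDerivAt_tv (s : ℝ) : HasDerivAt (fun s => tau s / vv s) (Real.exp (2 * s) / vv s ^ 2) s := by
  have h := (hasDerivAt_tau s).div (hasDerivAt_vv s) (vv_pos s).ne'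
  have e : (Real.exp (2 * s) * vv s - tau s * (4 / 5 * Real.exp (2 * s))) / vv s ^ 2
      = Real.exp (2 * s) / vv s ^ 2 := by
    congr 1
    unfold vv
    ring
  rw [e] at h
  exact h

theorem hasDerivAt_FF (s : ℝ) : HasDerivAt FF (1 + Real.exp (2 * s) / vv s ^ 2) s :=
  (hasDerivAt_id s).add (hasDerivAt_tv s)

theorem FF_zero : FF 0 = 0 := by
  unfold FF tau
  simp

theorem tv_mono : Monotone (fun s => tau s / vv s) := by
  refine monotone_of_deriv_nonneg (fun s => (hasDerivAt_tv s).differentiableAt) (fun s => ?_)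
  rw [(hasDerivAt_tv s).deriv]
  have := vv_pos s
  positivity

theorem FF_sub (a b : ℝ) (h : b ≤ a) : a - b ≤ FF a - FF b := by
  have := tv_mono h
  simp only at this
  unfold FF
  linarith

theorem FF_strictMono : StrictMono FF := by
  intro a b h
  have := FF_sub b a h.le
  linarith

theorem FF_cont : Continuous FF :=
  continuous_iff_continuousAt.2 fun s => (hasDerivAt_FF s).continuousAt

theorem FF_surj : Function.Surjective FF := by
  intro t
  apply mem_range_of_exists_le_of_exists_ge FF_cont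
  · refine ⟨t - 2, ?_⟩
    have h1 : tau (t - 2) / vv (t - 2) ≤ 2 := by
      rw [div_le_iff₀ (vv_pos _)]
      unfold vv
      have : 0 < Real.exp (2 * (t - 2)) := Real.exp_pos _
      unfold tau
      linarith
    unfold FF
    linarith
  · refine ⟨t + 2, ?_⟩
    have h1 : -2 ≤ tau (t + 2) / vv (t + 2) := by
      rw [le_div_iff₀ (vv_pos _)]
      unfold vv
      have : 0 < Real.exp (2 * (t + 2)) := Real.exp_pos _
      unfold tau
      linarith
    unfold FF
    linarith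

/-- the inverse of the arc length -/
theorem exists_phi : ∃ φ : ℝ → ℝ, (∀ t, FF (φ t) = t) ∧ φ 0 = 0 ∧ (∀ t ≥ 0, 0 ≤ φ t) ∧
    ∀ t, HasDerivAt φ (vv (φ t) ^ 2 / (vv (φ t) ^ 2 + Real.exp (2 * φ t))) t := by
  obtain ⟨φ, hφ⟩ := FF_surj.hasRightInverse
  have hφ' : ∀ t, FF (φ t) = t := hφ
  have h0 : φ 0 = 0 := FF_strictMono.injective (by rw [hφ', FF_zero])
  have hlip : ∀ a b, b ≤ a → 0 ≤ φ a - φ b ∧ φ a - φ b ≤ a - b := by
    intro a b h
    have h1 : φ b ≤ φ a := by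
      rw [← FF_strictMono.le_iff_le, hφ', hφ']
      exact h
    have h2 := FF_sub _ _ h1
    rw [hφ', hφ'] at h2
    exact ⟨by linarith, h2⟩
  have hc : Continuous φ := by
    refine (LipschitzWith.of_dist_le_mul (K := 1) fun a b => ?_).continuous
    rw [Real.dist_eq, Real.dist_eq, NNReal.coe_one, one_mul]
    rcases le_total b a with h | h
    · obtain ⟨h1, h2⟩ := hlip a b h
      rw [abs_of_nonneg h1, abs_of_nonneg (by linarith)]
      exact h2
    · obtain ⟨h1, h2⟩ := hlip b a h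
      rw [abs_sub_comm, abs_of_nonneg h1, abs_sub_comm a b, abs_of_nonneg (by linarith)]
      exact h2
  refine ⟨φ, hφ', h0, fun t ht => ?_, fun t => ?_⟩
  · rw [← h0, ← FF_strictMono.le_iff_le, hφ', hφ']
    exact ht
  · have hv := vv_pos (φ t)
    have hE : 0 < Real.exp (2 * φ t) := Real.exp_pos _
    have h1 : 1 + Real.exp (2 * φ t) / vv (φ t) ^ 2 ≠ 0 := by positivity
    have h := HasDerivAt.of_local_left_inverse hc.continuousAt (hasDerivAt_FF (φ t)) h1
      (Filter.Eventually.of_forall hφ')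
    have e : (1 + Real.exp (2 * φ t) / vv (φ t) ^ 2)⁻¹
        = vv (φ t) ^ 2 / (vv (φ t) ^ 2 + Real.exp (2 * φ t)) := by
      field_simp
    rwa [e] at h

/-- the velocity as a function of the first coordinate -/
noncomputable def W1 (m : ℕ) (c s : ℝ) : Fin (m + 3) → ℝ :=
  Fin.cons (α := fun _ => ℝ) (vv s ^ 2 / (vv s ^ 2 + Real.exp (2 * s)))
    (Fin.cons (α := fun _ => ℝ) (4 / 5 * Real.exp (2 * s) * vv s / (vv s ^ 2 + Real.exp (2 * s)))
      (Fin.cons (α := fun _ => ℝ) (c * Real.exp (2 * s) / (vv s ^ 2 + Real.exp (2 * s))) (fun _ => 0)))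

theorem W1_zero (m : ℕ) (c s : ℝ) : W1 m c s 0 = vv s ^ 2 / (vv s ^ 2 + Real.exp (2 * s)) := rfl

theorem W1_one (m : ℕ) (c s : ℝ) :
    W1 m c s 1 = 4 / 5 * Real.exp (2 * s) * vv s / (vv s ^ 2 + Real.exp (2 * s)) := rfl

theorem W1_two (m : ℕ) (c s : ℝ) : W1 m c s 2 = c * Real.exp (2 * s) / (vv s ^ 2 + Real.exp (2 * s)) := rfl

theorem W1_rest (m : ℕ) (c s : ℝ) (i : Fin m) : W1 m c s i.succ.succ.succ = 0 := rfl

theorem ray_zero (m : ℕ) (c s : ℝ) : ray m c s 0 = s := rfl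

theorem ray_one (m : ℕ) (c s : ℝ) : ray m c s 1 = Real.log (vv s) := rfl

theorem ray_two (m : ℕ) (c s : ℝ) : ray m c s 2 = c * tau s / vv s := rfl

theorem ray_rest (m : ℕ) (c s : ℝ) (i : Fin m) : ray m c s i.succ.succ.succ = 0 := rfl

/-- the second derivative as a function of the first coordinate -/
noncomputable def W2 (m : ℕ) (c s : ℝ) : Fin (m + 3) → ℝ :=
  Fin.cons (α := fun _ => ℝ)
    (((8 / 5 * Real.exp (2 * s) * vv s) * (vv s ^ 2 + Real.exp (2 * s))
      - vv s ^ 2 * (8 / 5 * Real.exp (2 * s) * vv s + 2 * Real.exp (2 * s)))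
      / (vv s ^ 2 + Real.exp (2 * s)) ^ 2)
    (Fin.cons (α := fun _ => ℝ)
      ((4 / 5 * (2 * Real.exp (2 * s) * vv s + Real.exp (2 * s) * (4 / 5 * Real.exp (2 * s)))
          * (vv s ^ 2 + Real.exp (2 * s))
        - 4 / 5 * Real.exp (2 * s) * vv s * (8 / 5 * Real.exp (2 * s) * vv s + 2 * Real.exp (2 * s)))
        / (vv s ^ 2 + Real.exp (2 * s)) ^ 2)
      (Fin.cons (α := fun _ => ℝ)
        ((c * (2 * Real.exp (2 * s)) * (vv s ^ 2 + Real.exp (2 * s))
          - c * Real.exp (2 * s) * (8 / 5 * Real.exp (2 * s) * vv s + 2 * Real.exp (2 * s)))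
          / (vv s ^ 2 + Real.exp (2 * s)) ^ 2) (fun _ => 0)))

theorem hasDerivAt_W1 (m : ℕ) (c s : ℝ) : HasDerivAt (W1 m c) (W2 m c s) s := by
  have hv := vv_pos s
  have hE : 0 < Real.exp (2 * s) := Real.exp_pos _
  have hD : HasDerivAt (fun s => vv s ^ 2 + Real.exp (2 * s))
      (8 / 5 * Real.exp (2 * s) * vv s + 2 * Real.exp (2 * s)) s := by
    refine (((hasDerivAt_vv s).pow 2).add (hasDerivAt_E s)).congr_deriv ?_
    norm_num
    ring
  have hD0 : vv s ^ 2 + Real.exp (2 * s) ≠ 0 := by positivity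
  refine hasDerivAt_pi.2 (fin_cases3 ?_ ?_ ?_ ?_)
  · have h1 : HasDerivAt (fun s => vv s ^ 2) (8 / 5 * Real.exp (2 * s) * vv s) s := by
      refine ((hasDerivAt_vv s).pow 2).congr_deriv ?_
      norm_num
      ring
    exact h1.div hD hD0
  · have h1 : HasDerivAt (fun s => 4 / 5 * Real.exp (2 * s) * vv s)
        (4 / 5 * (2 * Real.exp (2 * s) * vv s + Real.exp (2 * s) * (4 / 5 * Real.exp (2 * s)))) s := by
      refine (((hasDerivAt_E s).const_mul (4 / 5)).mul (hasDerivAt_vv s)).congr_deriv ?_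
      ring
    exact h1.div hD hD0
  · exact ((hasDerivAt_E s).const_mul c).div hD hD0
  · intro i
    exact hasDerivAt_const _ _

theorem hasDerivAt_ray (m : ℕ) (c : ℝ) {φ : ℝ → ℝ} {t : ℝ}
    (hφ : HasDerivAt φ (vv (φ t) ^ 2 / (vv (φ t) ^ 2 + Real.exp (2 * φ t))) t) :
    HasDerivAt (fun t => ray m c (φ t)) (W1 m c (φ t)) t := by
  have hv := vv_pos (φ t)
  have hE : 0 < Real.exp (2 * φ t) := Real.exp_pos _
  refine hasDerivAt_pi.2 (fin_cases3 ?_ ?_ ?_ ?_)
  · exact hφ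
  · have h1 := ((hasDerivAt_vv (φ t)).comp t hφ).log hv.ne'
    show HasDerivAt (fun t => Real.log (vv (φ t))) (W1 m c (φ t) 1) t
    rw [W1_one]
    refine h1.congr_deriv ?_
    simp only [Function.comp]
    field_simp
  · have h1 := (((hasDerivAt_tv (φ t)).comp t hφ).const_mul c)
    have h2 : HasDerivAt (fun t => c * tau (φ t) / vv (φ t)) (c * (Real.exp (2 * φ t) / vv (φ t) ^ 2 *
        (vv (φ t) ^ 2 / (vv (φ t) ^ 2 + Real.exp (2 * φ t))))) t := by
      refine h1.congr_of_eventuallyEq (Filter.Eventually.of_forall fun x => ?_)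
      simp only [Function.comp]
      ring
    show HasDerivAt (fun t => c * tau (φ t) / vv (φ t)) (W1 m c (φ t) 2) t
    rw [W1_two]
    refine h2.congr_deriv ?_
    field_simp
  · intro i
    exact hasDerivAt_const _ _

/-- the geodesic equation -/
theorem geo_eq (m : ℕ) (c : ℝ) (hc : c ^ 2 = 9 / 25) (s : ℝ) :
    (vv s ^ 2 / (vv s ^ 2 + Real.exp (2 * s))) • W2 m c s + GG m (ray m c s) (W1 m c s) (W1 m c s) = 0 := by
  have hv := vv_pos s
  have hE : 0 < Real.exp (2 * s) := Real.exp_pos _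
  have e0 : Real.exp (2 * (ray m c s 0 - ray m c s 1)) = Real.exp (2 * s) / vv s ^ 2 := by
    rw [ray_zero, ray_one, mul_sub, Real.exp_sub]
    congr 1
    rw [two_mul, Real.exp_add, Real.exp_log hv, sq]
  have e1 : Real.exp (2 * (ray m c s 1 - ray m c s 0)) = vv s ^ 2 / Real.exp (2 * s) := by
    rw [ray_zero, ray_one, mul_sub, Real.exp_sub]
    congr 1
    rw [two_mul, Real.exp_add, Real.exp_log hv, sq]
  have e2 : Real.exp (-(2 * ray m c s 0)) = (Real.exp (2 * s))⁻¹ := by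
    rw [ray_zero, Real.exp_neg]
  have e3 : Real.exp (-(2 * ray m c s 1)) = (vv s ^ 2)⁻¹ := by
    rw [ray_one, Real.exp_neg]
    congr 1
    rw [two_mul, Real.exp_add, Real.exp_log hv, sq]
  have hD0 : vv s ^ 2 + Real.exp (2 * s) ≠ 0 := by positivity
  have hcc : W1 m c s 2 * W1 m c s 2 = 9 / 25 * Real.exp (2 * s) ^ 2 / (vv s ^ 2 + Real.exp (2 * s)) ^ 2 := by
    rw [W1_two, ← hc]
    have hD1 : vv s ^ 2 + Real.exp (2 * s) ≠ 0 := by positivity
    field_simp
  funext k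
  revert k
  refine fin_cases3 ?_ ?_ ?_ ?_
  · show (vv s ^ 2 / (vv s ^ 2 + Real.exp (2 * s))) * W2 m c s 0 + GG m (ray m c s) (W1 m c s) (W1 m c s) 0 = 0
    have g0 : GG m (ray m c s) (W1 m c s) (W1 m c s) 0 =
      (Real.exp (2 * (ray m c s 0 - ray m c s 1)) * (W1 m c s 0 * W1 m c s 0 - W1 m c s 0 * W1 m c s 1 - W1 m c s 1 * W1 m c s 0)
        + Real.exp (-(2 * ray m c s 0)) * (W1 m c s 1 * W1 m c s 1)
        + Real.exp (2 * (ray m c s 1 - ray m c s 0)) * (W1 m c s 2 * W1 m c s 2))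
        / (1 + Real.exp (2 * (ray m c s 0 - ray m c s 1))) := rfl
    rw [g0, e0, e1, e2, hcc, W1_zero, W1_one]
    have w0 : W2 m c s 0 = ((8 / 5 * Real.exp (2 * s) * vv s) * (vv s ^ 2 + Real.exp (2 * s))
      - vv s ^ 2 * (8 / 5 * Real.exp (2 * s) * vv s + 2 * Real.exp (2 * s)))
      / (vv s ^ 2 + Real.exp (2 * s)) ^ 2 := rfl
    rw [w0]
    field_simp
    ring
  · show (vv s ^ 2 / (vv s ^ 2 + Real.exp (2 * s))) * W2 m c s 1 + GG m (ray m c s) (W1 m c s) (W1 m c s) 1 = 0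
    have g1 : GG m (ray m c s) (W1 m c s) (W1 m c s) 1 =
      (-Real.exp (-(2 * ray m c s 0)) * (W1 m c s 0 * W1 m c s 1 + W1 m c s 1 * W1 m c s 0)
          - Real.exp (-(2 * ray m c s 1)) * (W1 m c s 1 * W1 m c s 1)
          + Real.exp (2 * (ray m c s 0 - ray m c s 1)) * (W1 m c s 0 * W1 m c s 0)
          - Real.exp (2 * (ray m c s 1 - ray m c s 0)) * (W1 m c s 2 * W1 m c s 2))
        / (Real.exp (-(2 * ray m c s 0)) + Real.exp (-(2 * ray m c s 1))) := rfl
    rw [g1, e0, e1, e2, e3, hcc, W1_zero, W1_one]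
    have w1 : W2 m c s 1 = (4 / 5 * (2 * Real.exp (2 * s) * vv s + Real.exp (2 * s) * (4 / 5 * Real.exp (2 * s)))
          * (vv s ^ 2 + Real.exp (2 * s))
        - 4 / 5 * Real.exp (2 * s) * vv s * (8 / 5 * Real.exp (2 * s) * vv s + 2 * Real.exp (2 * s)))
        / (vv s ^ 2 + Real.exp (2 * s)) ^ 2 := rfl
    rw [w1]
    field_simp
    ring
  · show (vv s ^ 2 / (vv s ^ 2 + Real.exp (2 * s))) * W2 m c s 2 + GG m (ray m c s) (W1 m c s) (W1 m c s) 2 = 0
    have g2 : GG m (ray m c s) (W1 m c s) (W1 m c s) 2 =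
      Real.exp (2 * (ray m c s 1 - ray m c s 0)) * ((W1 m c s 1 - W1 m c s 0) * W1 m c s 2
          + (W1 m c s 1 - W1 m c s 0) * W1 m c s 2)
          / (1 + Real.exp (2 * (ray m c s 1 - ray m c s 0))) := rfl
    rw [g2, e1, W1_zero, W1_one, W1_two]
    have w2 : W2 m c s 2 = (c * (2 * Real.exp (2 * s)) * (vv s ^ 2 + Real.exp (2 * s))
          - c * Real.exp (2 * s) * (8 / 5 * Real.exp (2 * s) * vv s + 2 * Real.exp (2 * s)))
          / (vv s ^ 2 + Real.exp (2 * s)) ^ 2 := rfl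
    rw [w2]
    field_simp
    ring
  · intro i
    show (vv s ^ 2 / (vv s ^ 2 + Real.exp (2 * s))) * (0 : ℝ) + 0 = 0
    ring

/-- unit speed -/
theorem unit_eq (m : ℕ) (c : ℝ) (hc : c ^ 2 = 9 / 25) (s : ℝ) :
    (gm m).inner (ray m c s) (W1 m c s) (W1 m c s) = 1 := by
  have hv := vv_pos s
  have hE : 0 < Real.exp (2 * s) := Real.exp_pos _
  rw [inner_eq, sum3]
  have hrest : ∑ i : Fin m, hh m (ray m c s) i.succ.succ.succ * W1 m c s i.succ.succ.succ
      * W1 m c s i.succ.succ.succ = 0 := by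
    refine Finset.sum_eq_zero fun i _ => ?_
    rw [W1_rest]
    ring
  have e0 : Real.exp (2 * (ray m c s 0 - ray m c s 1)) = Real.exp (2 * s) / vv s ^ 2 := by
    rw [ray_zero, ray_one, mul_sub, Real.exp_sub]
    congr 1
    rw [two_mul, Real.exp_add, Real.exp_log hv, sq]
  have e1 : Real.exp (2 * (ray m c s 1 - ray m c s 0)) = vv s ^ 2 / Real.exp (2 * s) := by
    rw [ray_zero, ray_one, mul_sub, Real.exp_sub]
    congr 1
    rw [two_mul, Real.exp_add, Real.exp_log hv, sq]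
  have e2 : Real.exp (-(2 * ray m c s 0)) = (Real.exp (2 * s))⁻¹ := by
    rw [ray_zero, Real.exp_neg]
  have e3 : Real.exp (-(2 * ray m c s 1)) = (vv s ^ 2)⁻¹ := by
    rw [ray_one, Real.exp_neg]
    congr 1
    rw [two_mul, Real.exp_add, Real.exp_log hv, sq]
  have hcc : W1 m c s 2 * W1 m c s 2 = 9 / 25 * Real.exp (2 * s) ^ 2 / (vv s ^ 2 + Real.exp (2 * s)) ^ 2 := by
    rw [W1_two, ← hc]
    have hD1 : vv s ^ 2 + Real.exp (2 * s) ≠ 0 := by positivity
    field_simp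
  rw [hrest, hh_zero, hh_one, hh_two, e0, e1, e2, e3, mul_assoc _ (W1 m c s 2), hcc, W1_zero, W1_one]
  have hD0 : vv s ^ 2 + Real.exp (2 * s) ≠ 0 := by positivity
  field_simp
  ring

theorem rays (m : ℕ) : ∃ φ : ℝ → ℝ, φ 0 = 0 ∧ (∀ t ≥ 0, 0 ≤ φ t) ∧
    (∀ c : ℝ, c ^ 2 = 9 / 25 → (gm m).IsUnitSpeedGeodesic (fun t => ray m c (φ t))) ∧
    deriv (fun t => ray m (3 / 5) (φ t)) 0 ≠ deriv (fun t => ray m (-(3 / 5)) (φ t)) 0 := by
  obtain ⟨φ, -, h0, hpos, hd⟩ := exists_phi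
  have hder : ∀ c : ℝ, deriv (fun t => ray m c (φ t)) = fun t => W1 m c (φ t) :=
    fun c => funext fun t => (hasDerivAt_ray m c (hd t)).deriv
  have hder2 : ∀ (c t : ℝ), HasDerivAt (fun t => W1 m c (φ t))
      ((vv (φ t) ^ 2 / (vv (φ t) ^ 2 + Real.exp (2 * φ t))) • W2 m c (φ t)) t :=
    fun c t => (hasDerivAt_W1 m c (φ t)).scomp t (hd t)
  refine ⟨φ, h0, hpos, fun c hc => ⟨⟨fun t => (hasDerivAt_ray m c (hd t)).differentiableAt, ?_, ?_⟩, ?_⟩, ?_⟩
  · rw [hder]
    exact fun t => (hder2 c t).differentiableAt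
  · intro t
    unfold RMetric.covDeriv
    rw [hder, (hder2 c t).deriv, gam_eq]
    exact geo_eq m c hc (φ t)
  · intro t
    rw [hder]
    exact unit_eq m c hc (φ t)
  · rw [hder, hder]
    intro h
    have h2 := congrFun h 2
    simp only [h0, W1_two] at h2
    have hv := vv_pos 0
    have hE : 0 < Real.exp (2 * (0 : ℝ)) := Real.exp_pos _
    have hD : 0 < vv 0 ^ 2 + Real.exp (2 * (0 : ℝ)) := by positivity
    rw [div_left_inj' hD.ne'] at h2
    have h3 : Real.exp (2 * (0 : ℝ)) = 1 := by rw [mul_zero, Real.exp_zero]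
    rw [h3] at h2
    norm_num at h2

end Pool.Agent.NC76
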