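import Mathlib
import Pool.Agent.NC76.Defs
import Pool.Agent.NC76.Met
import Pool.Agent.NC76.NoConj
import Pool.Agent.NC76.Cpl
import Pool.Agent.NC76.Rays
import Pool.Agent.NC76.Bdd

/-!
# Assembly
-/

set_option autoImplicit false

namespace Pool.Agent.NC76

theorem final : ∀ n : ℕ, 3 ≤ n → ∃ g : RMetric n, g.Complete ∧ g.NoConjugatePoints ∧
    ∃ α β : ℝ → Fin n → ℝ, g.IsUnitSpeedGeodesic α ∧ g.IsUnitSpeedGeodesic β ∧ α 0 = β 0 ∧
      deriv α 0 ≠ deriv β 0 ∧ ∃ C : ℝ, ∀ t ≥ 0, g.dist (α t) (β t) ≤ C := by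
  intro n hn
  obtain ⟨m, rfl⟩ : ∃ m, n = m + 3 := ⟨n - 3, by omega⟩
  obtain ⟨φ, h0, hpos, hgeo, hne⟩ := rays m
  obtain ⟨C, hC⟩ := bounded_dist m
  refine ⟨gm m, complete_gm m, noConj_gm m, fun t => ray m (3 / 5) (φ t),
    fun t => ray m (-(3 / 5)) (φ t), hgeo _ (by norm_num), hgeo _ (by norm_num), ?_, hne, C,
    fun t ht => hC _ (hpos t ht)⟩
  simp only [h0, ray, tau]
  norm_num

end Pool.Agent.NC76
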